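import Pool.Agent.N212.FQ.Stm

/-!
# Project FQ: products of linear forms
-/

set_option autoImplicit false

namespace Pool.Agent.N212.FQ

open MvPolynomial

variable {M : ℕ}

/-- the form of degree one given by a linear functional -/
noncomputable def lin (l : (Fin M → ℂ) →ₗ[ℂ] ℂ) : MvPolynomial (Fin M) ℂ :=
  ∑ i, C (l (Pi.single i 1)) * X i

theorem eval_lin (l : (Fin M → ℂ) →ₗ[ℂ] ℂ) (x : Fin M → ℂ) : eval x (lin l) = l x := by
  unfold lin
  rw [map_sum]
  have h : x = ∑ i, x i • (Pi.single i (1 : ℂ) : Fin M → ℂ) := by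
    ext j
    simp [Finset.sum_apply, Pi.single_apply]
  conv_rhs => rw [h]
  rw [map_sum]
  refine Finset.sum_congr rfl fun i _ => ?_
  rw [map_smul]
  simp [mul_comm]

theorem lin_isHomogeneous (l : (Fin M → ℂ) →ₗ[ℂ] ℂ) : (lin l).IsHomogeneous 1 := by
  unfold lin
  refine IsHomogeneous.sum _ _ _ fun i _ => ?_
  have := (isHomogeneous_C (Fin M) (l (Pi.single i 1))).mul (isHomogeneous_X ℂ i)
  simpa using this

/-- the derivative of `F` at `x` in the direction `u` -/
noncomputable def der (x u : Fin M → ℂ) (F : MvPolynomial (Fin M) ℂ) : ℂ :=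
  ∑ i, eval x (pderiv i F) * u i

theorem der_add (x u : Fin M → ℂ) (F G : MvPolynomial (Fin M) ℂ) :
    der x u (F + G) = der x u F + der x u G := by
  unfold der
  rw [← Finset.sum_add_distrib]
  refine Finset.sum_congr rfl fun i _ => ?_
  rw [map_add, map_add]
  ring

theorem der_mul (x u : Fin M → ℂ) (F G : MvPolynomial (Fin M) ℂ) :
    der x u (F * G) = eval x F * der x u G + eval x G * der x u F := by
  unfold der
  rw [Finset.mul_sum, Finset.mul_sum, ← Finset.sum_add_distrib]
  refine Finset.sum_congr rfl fun i _ => ?_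
  rw [Derivation.leibniz]
  simp only [smul_eq_mul, map_add, map_mul]
  ring

theorem der_C (x u : Fin M → ℂ) (c : ℂ) : der x u (C c) = 0 := by
  unfold der
  simp

theorem der_smul (x u : Fin M → ℂ) (c : ℂ) (F : MvPolynomial (Fin M) ℂ) :
    der x u (C c * F) = c * der x u F := by
  rw [der_mul, der_C]
  simp

theorem der_lin (x u : Fin M → ℂ) (l : (Fin M → ℂ) →ₗ[ℂ] ℂ) : der x u (lin l) = l u := by
  rw [← eval_lin l u]
  unfold der lin
  rw [map_sum]
  refine Finset.sum_congr rfl fun i _ => ?_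
  rw [map_sum, map_sum, Finset.sum_eq_single i]
  · simp [Derivation.leibniz]
  · intro j _ hj
    simp [Derivation.leibniz, pderiv_X_of_ne hj]
  · intro h
    exact absurd (Finset.mem_univ i) h

/-- the product of linear forms -/
noncomputable def linProd {e : ℕ} (l : Fin e → (Fin M → ℂ) →ₗ[ℂ] ℂ) : MvPolynomial (Fin M) ℂ :=
  ∏ a, lin (l a)

theorem linProd_isHomogeneous {e : ℕ} (l : Fin e → (Fin M → ℂ) →ₗ[ℂ] ℂ) :
    (linProd l).IsHomogeneous e := by
  have := IsHomogeneous.prod Finset.univ (fun a => lin (l a)) (fun _ => 1)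
    (fun a _ => lin_isHomogeneous (l a))
  simpa [linProd] using this

theorem eval_linProd {e : ℕ} (l : Fin e → (Fin M → ℂ) →ₗ[ℂ] ℂ) (x : Fin M → ℂ) :
    eval x (linProd l) = ∏ a, l a x := by
  unfold linProd
  rw [map_prod]
  exact Finset.prod_congr rfl fun a _ => eval_lin _ _

theorem der_prod {κ : Type} [DecidableEq κ] (S : Finset κ) (F : κ → MvPolynomial (Fin M) ℂ)
    (x u : Fin M → ℂ) : der x u (∏ a ∈ S, F a) =
      ∑ a ∈ S, der x u (F a) * ∏ b ∈ S.erase a, eval x (F b) := by
  induction S using Finset.induction_on with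
  | empty =>
    simp only [Finset.prod_empty, Finset.sum_empty]
    have := der_C x u 1
    simpa using this
  | insert a S ha ih =>
    rw [Finset.prod_insert ha, der_mul, ih, Finset.sum_insert ha, Finset.erase_insert ha, map_prod,
      Finset.mul_sum, add_comm]
    congr 1
    · rw [mul_comm]
    · refine Finset.sum_congr rfl fun b hb => ?_
      have hab : b ≠ a := fun h => ha (h ▸ hb)
      rw [Finset.erase_insert_of_ne hab.symm, Finset.prod_insert (by simp [ha])]
      ring

theorem der_linProd_eq_zero_of_two {e : ℕ} (l : Fin e → (Fin M → ℂ) →ₗ[ℂ] ℂ) (x u : Fin M → ℂ)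
    {a b : Fin e} (hab : a ≠ b) (ha : l a x = 0) (hb : l b x = 0) :
    der x u (linProd l) = 0 := by
  unfold linProd
  rw [der_prod]
  refine Finset.sum_eq_zero fun c _ => ?_
  by_cases hc : c = a
  · rw [Finset.prod_eq_zero (i := b) (by simp [hc, hab.symm]) (by rw [eval_lin, hb]), mul_zero]
  · rw [Finset.prod_eq_zero (i := a) (by simp [Ne.symm hc]) (by rw [eval_lin, ha]), mul_zero]

theorem der_linProd_eq_zero_of_one {e : ℕ} (l : Fin e → (Fin M → ℂ) →ₗ[ℂ] ℂ) (x u : Fin M → ℂ)
    {a : Fin e} (ha : l a x = 0) (hu : l a u = 0) :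
    der x u (linProd l) = 0 := by
  unfold linProd
  rw [der_prod]
  refine Finset.sum_eq_zero fun c _ => ?_
  by_cases hc : c = a
  · rw [hc, der_lin, hu, zero_mul]
  · rw [Finset.prod_eq_zero (i := a) (by simp [Ne.symm hc]) (by rw [eval_lin, ha]), mul_zero]

/-- a functional that vanishes on a subspace and not at a vector outside -/
theorem exists_functional (P : Submodule ℂ (Fin M → ℂ)) {w : Fin M → ℂ} (hw : w ∉ P) :
    ∃ l : (Fin M → ℂ) →ₗ[ℂ] ℂ, l w ≠ 0 ∧ ∀ x ∈ P, l x = 0 := by
  obtain ⟨l, hl, hP⟩ := Submodule.exists_le_ker_of_notMem hw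
  exact ⟨l, hl, fun x hx => LinearMap.mem_ker.1 (hP hx)⟩

end Pool.Agent.N212.FQ
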