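import Pool.Agent.N212.FQ.A

/-!
# Project FQ: products of linear forms through given points
-/

set_option autoImplicit false

namespace Pool.Agent.N212.FQ

open MvPolynomial

variable {M : ℕ}

/-- one linear form for each of `K ≤ e` subspaces -/
theorem exists_single {K e : ℕ} (hK : K ≤ e) {w : Fin M → ℂ} (hw : w ≠ 0)
    (P : Fin K → Submodule ℂ (Fin M → ℂ)) (hP : ∀ i, w ∉ P i) :
    ∃ l : Fin e → (Fin M → ℂ) →ₗ[ℂ] ℂ, (∀ a, l a w ≠ 0) ∧
      ∀ i, ∀ x ∈ P i, l (Fin.castLE hK i) x = 0 := by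
  classical
  have h : ∀ a : Fin e, ∃ l : (Fin M → ℂ) →ₗ[ℂ] ℂ, l w ≠ 0 ∧
      ∀ (h : (a : ℕ) < K), ∀ x ∈ P ⟨a, h⟩, l x = 0 := by
    intro a
    by_cases ha : (a : ℕ) < K
    · obtain ⟨l, h1, h2⟩ := exists_functional (P ⟨a, ha⟩) (hP _)
      exact ⟨l, h1, fun _ => h2⟩
    · obtain ⟨l, h1, -⟩ := exists_functional (⊥ : Submodule ℂ (Fin M → ℂ)) (w := w) (by simpa using hw)
      exact ⟨l, h1, fun h => absurd h ha⟩
  choose l h1 h2 using h
  exact ⟨l, h1, fun i x hx => h2 (Fin.castLE hK i) i.2 x hx⟩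

theorem mem_span_pair_symm {w s t : Fin M → ℂ} (ht : w ∉ Submodule.span ℂ {t}) (ht0 : t ≠ 0)
    (h : t ∈ Submodule.span ℂ {w, s}) : s ∈ Submodule.span ℂ {w, t} := by
  rw [Submodule.mem_span_pair] at h ⊢
  obtain ⟨a, b, hab⟩ := h
  have hb : b ≠ 0 := by
    rintro rfl
    rw [zero_smul, add_zero] at hab
    have ha : a ≠ 0 := by
      rintro rfl
      rw [zero_smul] at hab
      exact ht0 hab.symm
    refine ht (Submodule.mem_span_singleton.2 ⟨a⁻¹, ?_⟩)
    rw [← hab, smul_smul, inv_mul_cancel₀ ha, one_smul]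
  refine ⟨-(b⁻¹ * a), b⁻¹, ?_⟩
  rw [← hab, smul_add, smul_smul, smul_smul, inv_mul_cancel₀ hb, one_smul, ← add_assoc, ← add_smul]
  simp

/-- linear forms through `K ≤ 2e` points, two points for each form -/
theorem exists_boxes (hpair : S_PAIR) {K e : ℕ} {w : Fin M → ℂ} (hw : w ≠ 0)
    (s : Fin K → Fin M → ℂ) (hs0 : ∀ i, s i ≠ 0) (hs : ∀ i, w ∉ Submodule.span ℂ {s i})
    (hK : K ≤ 2 * e)
    (hcls : ∀ i, {j | s j ∈ Submodule.span ℂ {w, s i}}.ncard ≤ e) :
    ∃ (l : Fin e → (Fin M → ℂ) →ₗ[ℂ] ℂ) (τ : Fin K → Fin e), (∀ a, l a w ≠ 0) ∧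
      (∀ i, l (τ i) (s i) = 0) ∧
      ∀ i j, i ≠ j → τ i = τ j → s j ∉ Submodule.span ℂ {w, s i} := by
  classical
  -- the classes
  have hsymm : ∀ i j, s j ∈ Submodule.span ℂ {w, s i} → s i ∈ Submodule.span ℂ {w, s j} :=
    fun i j h => mem_span_pair_symm (hs j) (hs0 j) h
  have hself : ∀ i, s i ∈ Submodule.span ℂ {w, s i} := fun i =>
    Submodule.subset_span (by simp)
  have hwm : ∀ i, w ∈ Submodule.span ℂ {w, s i} := fun i =>
    Submodule.subset_span (by simp)
  have hspan : ∀ i j, s j ∈ Submodule.span ℂ {w, s i} →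
      Submodule.span ℂ {w, s j} = Submodule.span ℂ {w, s i} := by
    intro i j h
    refine le_antisymm ?_ ?_
    · rw [Submodule.span_le]
      rintro x (rfl | rfl)
      · exact hwm i
      · exact h
    · rw [Submodule.span_le]
      rintro x (rfl | rfl)
      · exact hwm j
      · exact hsymm i j h
  obtain ⟨φ, hφ⟩ : ∃ φ : Set.range (fun i => Submodule.span ℂ {w, s i}) → ℕ,
      Function.Injective φ := by
    have : Finite (Set.range (fun i => Submodule.span ℂ {w, s i})) := Set.finite_range _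
    exact Countable.exists_injective_nat _
  let c : Fin K → ℕ := fun i => φ ⟨_, ⟨i, rfl⟩⟩
  have hc : ∀ i j, c i = c j ↔ s j ∈ Submodule.span ℂ {w, s i} := by
    intro i j
    constructor
    · intro h
      have := congrArg Subtype.val (hφ h)
      simp only at this
      rw [this]
      exact hself j
    · intro h
      have := hspan i j h
      show φ _ = φ _
      congr 1
      exact Subtype.ext this.symm
  obtain ⟨τ, h1, h2⟩ := hpair K e c hK (by
    intro a
    by_cases ha : ∃ i, c i = a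
    · obtain ⟨i, hi⟩ := ha
      refine le_trans ?_ (hcls i)
      rw [Set.ncard_eq_toFinset_card']
      refine Finset.card_le_card fun j hj => ?_
      rw [Finset.mem_filter] at hj
      rw [Set.mem_toFinset, Set.mem_ofPred_eq, ← hc, hi, hj.2]
    · rw [Finset.filter_false_of_mem]
      · simp
      · intro i _ hi
        exact ha ⟨i, hi⟩)
  -- the forms
  have h3 : ∀ a : Fin e, w ∉ Submodule.span ℂ (s '' {i | τ i = a}) := by
    intro a hwa
    by_cases ha : ∃ i, τ i = a
    · obtain ⟨i, hi⟩ := ha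
      by_cases hj : ∃ j, j ≠ i ∧ τ j = a
      · obtain ⟨j, hji, hj⟩ := hj
        have hsub : Submodule.span ℂ (s '' {i | τ i = a}) ≤ Submodule.span ℂ {s i, s j} := by
          rw [Submodule.span_le]
          rintro _ ⟨k, hk, rfl⟩
          have : k = i ∨ k = j := by
            rcases h2 i j k (hi.trans hj.symm) (hi.trans hk.symm) with h | h | h
            · exact absurd h.symm hji
            · exact Or.inl h.symm
            · exact Or.inr h.symm
          refine Submodule.subset_span ?_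
          rcases this with rfl | rfl <;> simp
        have h4 := hsub hwa
        rw [Submodule.mem_span_pair] at h4
        obtain ⟨p, q, hpq⟩ := h4
        by_cases hq : q = 0
        · refine hs i (Submodule.mem_span_singleton.2 ⟨p, ?_⟩)
          rw [← hpq, hq, zero_smul, add_zero]
        · refine h1 i j (Ne.symm hji) (hi.trans hj.symm) ((hc i j).2 ?_)
          rw [Submodule.mem_span_pair]
          refine ⟨q⁻¹, -(q⁻¹ * p), ?_⟩
          rw [← hpq, smul_add, smul_smul, smul_smul, inv_mul_cancel₀ hq, one_smul, add_assoc,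
            add_comm (s j), ← add_assoc, ← add_smul]
          simp
      · have hsub : Submodule.span ℂ (s '' {i | τ i = a}) ≤ Submodule.span ℂ {s i} := by
          rw [Submodule.span_le]
          rintro _ ⟨k, hk, rfl⟩
          have : k = i := by
            by_contra h
            exact hj ⟨k, h, hk⟩
          subst this
          exact Submodule.subset_span (by simp)
        exact hs i (hsub hwa)
    · have : {i | τ i = a} = ∅ := by
        ext i
        simp only [Set.mem_ofPred_eq, Set.mem_empty_iff_false, iff_false]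
        exact fun h => ha ⟨i, h⟩
      rw [this, Set.image_empty, Submodule.span_empty, Submodule.mem_bot] at hwa
      exact hw hwa
  choose l h4 h5 using fun a => exists_functional _ (h3 a)
  refine ⟨l, τ, h4, fun i => h5 _ _ (Submodule.subset_span ⟨i, rfl, rfl⟩), ?_⟩
  intro i j hij hτ hmem
  exact h1 i j hij hτ ((hc i j).2 hmem)

/-- points, general position -/
theorem form_points (hpair : S_PAIR) {ι : Type} [Finite ι] {e : ℕ} {w : Fin M → ℂ} (hw : w ≠ 0)
    (s : ι → Fin M → ℂ) (hs0 : ∀ i, s i ≠ 0) (hs : ∀ i, w ∉ Submodule.span ℂ {s i})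
    (hK : Nat.card ι ≤ 2 * e)
    (hcls : ∀ i, {j | s j ∈ Submodule.span ℂ {w, s i}}.ncard ≤ e) :
    ∃ F : MvPolynomial (Fin M) ℂ, F.IsHomogeneous e ∧ eval w F ≠ 0 ∧ ∀ i, eval (s i) F = 0 := by
  obtain ⟨f⟩ := Finite.exists_equiv_fin ι |>.choose_spec
  have hcard : Nat.card ι = (Finite.exists_equiv_fin ι).choose := by
    rw [Nat.card_congr f, Nat.card_eq_fintype_card, Fintype.card_fin]
  set K := (Finite.exists_equiv_fin ι).choose
  obtain ⟨l, τ, h1, h2, -⟩ := exists_boxes (K := K) (e := e) hpair hw (fun k => s (f.symm k)) (fun k => hs0 _)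
    (fun k => hs _) (by omega) (fun k => by
      refine le_trans (le_of_eq ?_) (hcls (f.symm k))
      refine Set.ncard_congr (fun a _ => f.symm a) (fun a ha => ha) (fun a b _ _ h => f.symm.injective h)
        (fun b hb => ⟨f b, by simpa using hb, by simp⟩))
  refine ⟨linProd l, linProd_isHomogeneous l, ?_, ?_⟩
  · rw [eval_linProd, Finset.prod_ne_zero_iff]
    exact fun a _ => h1 a
  · intro i
    rw [eval_linProd]
    refine Finset.prod_eq_zero (Finset.mem_univ (τ (f i))) ?_
    have := h2 (f i)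
    simpa using this

/-- points, few of them -/
theorem form_few {ι : Type} [Finite ι] {e : ℕ} {w : Fin M → ℂ} (hw : w ≠ 0)
    (s : ι → Fin M → ℂ) (hs : ∀ i, w ∉ Submodule.span ℂ {s i}) (hK : Nat.card ι ≤ e) :
    ∃ F : MvPolynomial (Fin M) ℂ, F.IsHomogeneous e ∧ eval w F ≠ 0 ∧ ∀ i, eval (s i) F = 0 := by
  obtain ⟨f⟩ := Finite.exists_equiv_fin ι |>.choose_spec
  have hcard : Nat.card ι = (Finite.exists_equiv_fin ι).choose := by
    rw [Nat.card_congr f, Nat.card_eq_fintype_card, Fintype.card_fin]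
  set K := (Finite.exists_equiv_fin ι).choose
  obtain ⟨l, h1, h2⟩ := exists_single (K := K) (e := e) (by omega) hw
    (fun k => Submodule.span ℂ {s (f.symm k)}) (fun k => hs _)
  refine ⟨linProd l, linProd_isHomogeneous l, ?_, ?_⟩
  · rw [eval_linProd, Finset.prod_ne_zero_iff]
    exact fun a _ => h1 a
  · intro i
    rw [eval_linProd]
    refine Finset.prod_eq_zero (Finset.mem_univ (Fin.castLE (by omega) (f i))) ?_
    refine h2 (f i) _ ?_
    simpa using Submodule.mem_span_singleton_self (R := ℂ) (s i)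

/-- double points, general position -/
theorem form_double (hpair : S_PAIR) {ι : Type} [Finite ι] {e : ℕ} {w : Fin M → ℂ} (hw : w ≠ 0)
    (s : ι → Fin M → ℂ) (hs0 : ∀ i, s i ≠ 0) (hs : ∀ i, w ∉ Submodule.span ℂ {s i})
    (hK : Nat.card ι ≤ e)
    (hcls : ∀ i, 2 * {j | s j ∈ Submodule.span ℂ {w, s i}}.ncard ≤ e) :
    ∃ F : MvPolynomial (Fin M) ℂ, F.IsHomogeneous e ∧ eval w F ≠ 0 ∧
      ∀ i, eval (s i) F = 0 ∧ ∀ u, der (s i) u F = 0 := by
  obtain ⟨f⟩ := Finite.exists_equiv_fin (ι × Fin 2) |>.choose_spec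
  have hcard : 2 * Nat.card ι = (Finite.exists_equiv_fin (ι × Fin 2)).choose := by
    have h1 : Nat.card (ι × Fin 2) = (Finite.exists_equiv_fin (ι × Fin 2)).choose := by
      rw [Nat.card_congr f, Nat.card_eq_fintype_card, Fintype.card_fin]
    rw [← h1, Nat.card_prod, Nat.card_eq_fintype_card (α := Fin 2), Fintype.card_fin, mul_comm]
  set K := (Finite.exists_equiv_fin (ι × Fin 2)).choose
  obtain ⟨l, τ, h1, h2, h3⟩ := exists_boxes (K := K) (e := e) hpair hw (fun k => s (f.symm k).1) (fun k => hs0 _)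
    (fun k => hs _) (by omega) (fun k => by
      refine le_trans ?_ (hcls (f.symm k).1)
      have h4 : {j : Fin K | s (f.symm j).1 ∈ Submodule.span ℂ {w, s (f.symm k).1}}.ncard =
          ({j | s j ∈ Submodule.span ℂ {w, s (f.symm k).1}} ×ˢ (Set.univ : Set (Fin 2))).ncard := by
        refine Set.ncard_congr (fun a _ => f.symm a) (fun a ha => ⟨ha, Set.mem_univ _⟩)
          (fun a b _ _ h => f.symm.injective h) (fun b hb => ⟨f b, by simpa using hb.1, by simp⟩)
      rw [h4, Set.ncard_prod, Set.ncard_univ, Nat.card_eq_fintype_card, Fintype.card_fin, mul_comm])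
  refine ⟨linProd l, linProd_isHomogeneous l, ?_, ?_⟩
  · rw [eval_linProd, Finset.prod_ne_zero_iff]
    exact fun a _ => h1 a
  · intro i
    have h4 := h2 (f (i, 0))
    have h5 := h2 (f (i, 1))
    simp only [Equiv.symm_apply_apply] at h4 h5
    have hne : τ (f (i, 0)) ≠ τ (f (i, 1)) := by
      intro h
      have h6 := h3 (f (i, 0)) (f (i, 1)) (by
        intro h
        have := f.injective h
        simp at this) h
      simp only [Equiv.symm_apply_apply] at h6
      exact h6 (Submodule.subset_span (by simp))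
    refine ⟨?_, fun u => der_linProd_eq_zero_of_two l _ _ hne h4 h5⟩
    rw [eval_linProd]
    exact Finset.prod_eq_zero (Finset.mem_univ (τ (f (i, 0)))) h4

/-- double points, few of them -/
theorem form_double_few {ι : Type} [Finite ι] {e : ℕ} {w : Fin M → ℂ} (hw : w ≠ 0)
    (s : ι → Fin M → ℂ) (hs : ∀ i, w ∉ Submodule.span ℂ {s i}) (hK : 2 * Nat.card ι ≤ e) :
    ∃ F : MvPolynomial (Fin M) ℂ, F.IsHomogeneous e ∧ eval w F ≠ 0 ∧
      ∀ i, eval (s i) F = 0 ∧ ∀ u, der (s i) u F = 0 := by
  obtain ⟨f⟩ := Finite.exists_equiv_fin (ι × Fin 2) |>.choose_spec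
  have hcard : 2 * Nat.card ι = (Finite.exists_equiv_fin (ι × Fin 2)).choose := by
    have h1 : Nat.card (ι × Fin 2) = (Finite.exists_equiv_fin (ι × Fin 2)).choose := by
      rw [Nat.card_congr f, Nat.card_eq_fintype_card, Fintype.card_fin]
    rw [← h1, Nat.card_prod, Nat.card_eq_fintype_card (α := Fin 2), Fintype.card_fin, mul_comm]
  set K := (Finite.exists_equiv_fin (ι × Fin 2)).choose
  obtain ⟨l, h1, h2⟩ := exists_single (K := K) (e := e) (by omega) hw
    (fun k => Submodule.span ℂ {s (f.symm k).1}) (fun k => hs _)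
  refine ⟨linProd l, linProd_isHomogeneous l, ?_, ?_⟩
  · rw [eval_linProd, Finset.prod_ne_zero_iff]
    exact fun a _ => h1 a
  · intro i
    have h4 := h2 (f (i, 0)) (s i) (by simpa using Submodule.mem_span_singleton_self (R := ℂ) (s i))
    have h5 := h2 (f (i, 1)) (s i) (by simpa using Submodule.mem_span_singleton_self (R := ℂ) (s i))
    have hne : Fin.castLE (show K ≤ e by omega) (f (i, 0)) ≠ Fin.castLE (show K ≤ e by omega) (f (i, 1)) := by
      intro h
      have := f.injective (Fin.castLE_injective _ h)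
      simp at this
    refine ⟨?_, fun u => der_linProd_eq_zero_of_two l _ _ hne h4 h5⟩
    rw [eval_linProd]
    exact Finset.prod_eq_zero (Finset.mem_univ _) h4

/-- jets, one linear form for each of them -/
theorem form_jets {ι : Type} [Finite ι] {e : ℕ} {w : Fin M → ℂ} (hw : w ≠ 0)
    (s u : ι → Fin M → ℂ) (hs : ∀ i, w ∉ Submodule.span ℂ {s i, u i}) (hK : Nat.card ι ≤ e) :
    ∃ F : MvPolynomial (Fin M) ℂ, F.IsHomogeneous e ∧ eval w F ≠ 0 ∧
      ∀ i, eval (s i) F = 0 ∧ der (s i) (u i) F = 0 := by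
  obtain ⟨f⟩ := Finite.exists_equiv_fin ι |>.choose_spec
  have hcard : Nat.card ι = (Finite.exists_equiv_fin ι).choose := by
    rw [Nat.card_congr f, Nat.card_eq_fintype_card, Fintype.card_fin]
  set K := (Finite.exists_equiv_fin ι).choose
  obtain ⟨l, h1, h2⟩ := exists_single (K := K) (e := e) (by omega) hw
    (fun k => Submodule.span ℂ {s (f.symm k), u (f.symm k)}) (fun k => hs _)
  refine ⟨linProd l, linProd_isHomogeneous l, ?_, ?_⟩
  · rw [eval_linProd, Finset.prod_ne_zero_iff]
    exact fun a _ => h1 a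
  · intro i
    have h4 := h2 (f i) (s i) (by simpa using Submodule.subset_span (by simp))
    have h5 := h2 (f i) (u i) (by simpa using Submodule.subset_span (by simp))
    refine ⟨?_, der_linProd_eq_zero_of_one l _ _ h4 h5⟩
    rw [eval_linProd]
    exact Finset.prod_eq_zero (Finset.mem_univ _) h4

end Pool.Agent.N212.FQ
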