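import Pool.Agent.N212.FQ.A

/-!
# Project FQ: averaging over the group
-/

set_option autoImplicit false

namespace Pool.Agent.N212.FQ

open MvPolynomial

variable {M : ℕ}

/-- the form `F(A x)` -/
noncomputable def subst (A : (Fin M → ℂ) →ₗ[ℂ] (Fin M → ℂ)) (F : MvPolynomial (Fin M) ℂ) :
    MvPolynomial (Fin M) ℂ := bind₁ (fun i => lin (LinearMap.proj i ∘ₗ A)) F

theorem eval_subst (A : (Fin M → ℂ) →ₗ[ℂ] (Fin M → ℂ)) (F : MvPolynomial (Fin M) ℂ)
    (x : Fin M → ℂ) : eval x (subst A F) = eval (A x) F := by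
  unfold subst
  rw [← aeval_eq_eval, aeval_bind₁]
  simp only [aeval_eq_eval, eval_lin]
  rfl

theorem subst_isHomogeneous (A : (Fin M → ℂ) →ₗ[ℂ] (Fin M → ℂ)) {F : MvPolynomial (Fin M) ℂ}
    {e : ℕ} (hF : F.IsHomogeneous e) : (subst A F).IsHomogeneous e := by
  unfold subst bind₁
  have := hF.aeval (fun i => lin (LinearMap.proj i ∘ₗ A)) (fun i => lin_isHomogeneous _)
  simpa using this

theorem der_subst (A : (Fin M → ℂ) →ₗ[ℂ] (Fin M → ℂ)) (F : MvPolynomial (Fin M) ℂ)
    (x u : Fin M → ℂ) : der x u (subst A F) = der (A x) (A u) F := by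
  induction F using MvPolynomial.induction_on with
  | C c =>
    unfold subst
    rw [bind₁_C_right, der_C, der_C]
  | add p q hp hq =>
    unfold subst at hp hq ⊢
    rw [map_add, der_add, hp, hq, der_add]
  | mul_X p i hp =>
    have h1 : subst A (p * X i) = subst A p * lin (LinearMap.proj i ∘ₗ A) := by
      unfold subst
      rw [map_mul, bind₁_X_right]
    rw [h1, der_mul, hp, der_mul, eval_subst, der_lin, eval_lin]
    have h2 : der (A x) (A u) (X i : MvPolynomial (Fin M) ℂ) = A u i := by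
      unfold der
      rw [Finset.sum_eq_single i]
      · simp
      · intro j _ hj
        rw [pderiv_X_of_ne hj.symm]
        simp
      · intro h
        exact absurd (Finset.mem_univ i) h
    rw [h2, eval_X]
    rfl

theorem eval_smul_of_isHomogeneous {F : MvPolynomial (Fin M) ℂ} {e : ℕ} (hF : F.IsHomogeneous e)
    (c : ℂ) (x : Fin M → ℂ) : eval (c • x) F = c ^ e * eval x F := by
  rw [eval_eq', eval_eq', Finset.mul_sum]
  refine Finset.sum_congr rfl fun m hm => ?_
  have h1 : ∑ i, m i = e := by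
    have := hF (mem_support_iff.1 hm)
    rw [← this, Finsupp.weight_apply, Finsupp.sum_fintype _ _ (fun i => by simp)]
    simp
  have h2 : ∏ i, (c • x) i ^ m i = c ^ e * ∏ i, x i ^ m i := by
    rw [← h1, ← Finset.prod_pow_eq_pow_sum, ← Finset.prod_mul_distrib]
    refine Finset.prod_congr rfl fun i _ => ?_
    rw [Pi.smul_apply, smul_eq_mul, mul_pow]
  rw [h2]
  ring

theorem der_smul_right (F : MvPolynomial (Fin M) ℂ) (c : ℂ) (x u : Fin M → ℂ) :
    der x (c • u) F = c * der x u F := by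
  unfold der
  rw [Finset.mul_sum]
  refine Finset.sum_congr rfl fun i _ => ?_
  rw [Pi.smul_apply, smul_eq_mul]
  ring

/-- `der (c x) (c u) F = c ^ e der x u F` -/
theorem der_smul_smul {F : MvPolynomial (Fin M) ℂ} {e : ℕ} (hF : F.IsHomogeneous e)
    (c : ℂ) (x u : Fin M → ℂ) : der (c • x) (c • u) F = c ^ e * der x u F := by
  have h1 : subst (c • LinearMap.id) F = C (c ^ e) * F := by
    refine MvPolynomial.funext fun y => ?_
    rw [eval_subst, map_mul, eval_C]
    simpa using eval_smul_of_isHomogeneous hF c y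
  have h2 := der_subst (c • LinearMap.id) F x u
  rw [h1, der_smul] at h2
  simpa using h2.symm

section avg

variable {G : Type} [Group G] [Finite G] (ρ : Representation ℂ G (Fin M → ℂ)) (χ : G →* ℂˣ)

/-- the average -/
noncomputable def avg (F : MvPolynomial (Fin M) ℂ) : MvPolynomial (Fin M) ℂ :=
  ∑ᶠ g : G, C ((χ g⁻¹ : ℂˣ) : ℂ) * subst (ρ g) F

omit [Finite G] in
theorem avg_eq [Fintype G] (F : MvPolynomial (Fin M) ℂ) :
    avg ρ χ F = ∑ g : G, C ((χ g⁻¹ : ℂˣ) : ℂ) * subst (ρ g) F := by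
  unfold avg
  rw [finsum_eq_sum_of_fintype]

theorem avg_isHomogeneous {F : MvPolynomial (Fin M) ℂ} {e : ℕ} (hF : F.IsHomogeneous e) :
    (avg ρ χ F).IsHomogeneous e := by
  classical
  have := Fintype.ofFinite G
  rw [avg_eq]
  refine IsHomogeneous.sum _ _ _ fun g _ => ?_
  have := (isHomogeneous_C (Fin M) ((χ g⁻¹ : ℂˣ) : ℂ)).mul (subst_isHomogeneous (ρ g) hF)
  simpa using this

omit [Finite G] in
theorem eval_avg [Fintype G] (F : MvPolynomial (Fin M) ℂ) (x : Fin M → ℂ) :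
    eval x (avg ρ χ F) = ∑ g : G, ((χ g⁻¹ : ℂˣ) : ℂ) * eval (ρ g x) F := by
  rw [avg_eq, map_sum]
  refine Finset.sum_congr rfl fun g _ => ?_
  rw [map_mul, eval_C, eval_subst]

theorem der_sum {κ : Type} (S : Finset κ) (F : κ → MvPolynomial (Fin M) ℂ) (x u : Fin M → ℂ) :
    der x u (∑ a ∈ S, F a) = ∑ a ∈ S, der x u (F a) := by
  classical
  induction S using Finset.induction_on with
  | empty =>
    unfold der
    simp
  | insert a S ha ih => rw [Finset.sum_insert ha, der_add, ih, Finset.sum_insert ha]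

omit [Finite G] in
theorem der_avg [Fintype G] (F : MvPolynomial (Fin M) ℂ) (x u : Fin M → ℂ) :
    der x u (avg ρ χ F) = ∑ g : G, ((χ g⁻¹ : ℂˣ) : ℂ) * der (ρ g x) (ρ g u) F := by
  rw [avg_eq, der_sum]
  refine Finset.sum_congr rfl fun g _ => ?_
  rw [der_smul, der_subst]

theorem avg_semi (F : MvPolynomial (Fin M) ℂ) (h : G) (x : Fin M → ℂ) :
    eval (ρ h x) (avg ρ χ F) = (χ h : ℂ) * eval x (avg ρ χ F) := by
  classical
  have := Fintype.ofFinite G
  rw [eval_avg, eval_avg, Finset.mul_sum]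
  refine Fintype.sum_equiv (Equiv.mulRight h) _ _ fun g => ?_
  rw [Equiv.coe_mulRight, map_mul ρ g h, Module.End.mul_apply, mul_inv_rev, map_mul χ]
  push_cast
  rw [← mul_assoc, ← mul_assoc]
  congr 2
  rw [map_inv χ h, Units.mul_inv, one_mul]

/-- the value of the average at a point `w` if `F` vanishes at the other points of the orbit -/
theorem avg_ne_zero {F : MvPolynomial (Fin M) ℂ} {e : ℕ} (hF : F.IsHomogeneous e)
    (hχ : ∀ (g : G) (c : ℂ), (∀ x, ρ g x = c • x) → (χ g : ℂ) = c ^ e)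
    {w : Fin M → ℂ} (hw : eval w F ≠ 0)
    (h : ∀ g : G, (¬ ∃ c : ℂ, ∀ x, ρ g x = c • x) → eval (ρ g w) F = 0) :
    eval w (avg ρ χ F) ≠ 0 := by
  classical
  have := Fintype.ofFinite G
  rw [eval_avg]
  have h1 : ∀ g : G, ((χ g⁻¹ : ℂˣ) : ℂ) * eval (ρ g w) F =
      if ∃ c : ℂ, ∀ x, ρ g x = c • x then eval w F else 0 := by
    intro g
    split_ifs with hg
    · obtain ⟨c, hc⟩ := hg
      rw [hc, eval_smul_of_isHomogeneous hF, ← hχ g c hc, ← mul_assoc, map_inv, Units.inv_mul,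
        one_mul]
    · rw [h g hg, mul_zero]
  rw [Finset.sum_congr rfl fun g _ => h1 g, ← Finset.sum_filter, Finset.sum_const, nsmul_eq_mul]
  refine mul_ne_zero ?_ hw
  rw [Nat.cast_ne_zero]
  refine Finset.card_ne_zero_of_mem (a := 1) ?_
  rw [Finset.mem_filter]
  exact ⟨Finset.mem_univ _, 1, fun x => by simp⟩

theorem avg_eq_zero (F : MvPolynomial (Fin M) ℂ) {v : Fin M → ℂ}
    (h : ∀ g : G, eval (ρ g v) F = 0) : eval v (avg ρ χ F) = 0 := by
  classical
  have := Fintype.ofFinite G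
  rw [eval_avg]
  exact Finset.sum_eq_zero fun g _ => by rw [h g, mul_zero]

theorem der_avg_ne_zero {F : MvPolynomial (Fin M) ℂ} {e : ℕ} (hF : F.IsHomogeneous e)
    (hχ : ∀ (g : G) (c : ℂ), (∀ x, ρ g x = c • x) → (χ g : ℂ) = c ^ e)
    {w u : Fin M → ℂ} (hw : der w u F ≠ 0)
    (h : ∀ g : G, (¬ ∃ c : ℂ, ∀ x, ρ g x = c • x) → der (ρ g w) (ρ g u) F = 0) :
    der w u (avg ρ χ F) ≠ 0 := by
  classical
  have := Fintype.ofFinite G
  rw [der_avg]
  have h1 : ∀ g : G, ((χ g⁻¹ : ℂˣ) : ℂ) * der (ρ g w) (ρ g u) F =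
      if ∃ c : ℂ, ∀ x, ρ g x = c • x then der w u F else 0 := by
    intro g
    split_ifs with hg
    · obtain ⟨c, hc⟩ := hg
      rw [hc, hc, der_smul_smul hF, ← hχ g c hc, ← mul_assoc, map_inv, Units.inv_mul, one_mul]
    · rw [h g hg, mul_zero]
  rw [Finset.sum_congr rfl fun g _ => h1 g, ← Finset.sum_filter, Finset.sum_const, nsmul_eq_mul]
  refine mul_ne_zero ?_ hw
  rw [Nat.cast_ne_zero]
  refine Finset.card_ne_zero_of_mem (a := 1) ?_
  rw [Finset.mem_filter]
  exact ⟨Finset.mem_univ _, 1, fun x => by simp⟩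

end avg

end Pool.Agent.N212.FQ
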