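import Pool.Agent.N212.FQ.B
import Pool.Agent.N212.FQ.C

/-!
# Project FQ: orbits and planes
-/

set_option autoImplicit false

namespace Pool.Agent.N212.FQ

open MvPolynomial

variable {M : ℕ}

/-- a plane which contains more than half of a set of points permuted by `A` is mapped to itself -/
theorem stable_plane {κ : Type} [Finite κ] (y : κ → Fin M → ℂ)
    (hne : ∀ i j, i ≠ j → ∀ t : ℂ, y i ≠ t • y j) (hy0 : ∀ i, y i ≠ 0)
    (A : (Fin M → ℂ) →ₗ[ℂ] (Fin M → ℂ)) (hA : Function.Injective A)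
    (hperm : ∀ i, ∃ (j : κ) (t : ℂ), A (y i) = t • y j)
    (P : Submodule ℂ (Fin M → ℂ)) (hP : Module.finrank ℂ P = 2)
    (hcount : Nat.card κ + 2 ≤ 2 * {i | y i ∈ P}.ncard) : P.map A = P := by
  classical
  choose σ t ht using hperm
  have ht0 : ∀ i, t i ≠ 0 := by
    intro i h
    have := ht i
    rw [h, zero_smul] at this
    exact hy0 i (hA (by rw [this, map_zero]))
  have hσ : Function.Injective σ := by
    intro i j hij
    by_contra hne'
    refine hne i j hne' (t i * (t j)⁻¹) (hA ?_)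
    rw [map_smul, ht i, ht j, hij, smul_smul]
    congr 1
    rw [mul_assoc, inv_mul_cancel₀ (ht0 j), mul_one]
  by_contra hPA
  set T : Set κ := {i | y i ∈ P} with hT
  set T' : Set κ := {i | y i ∈ P.map A} with hT'
  have h1 : T.ncard ≤ T'.ncard := by
    refine Set.ncard_le_ncard_of_injOn σ (fun i hi => ?_) hσ.injOn (Set.toFinite _)
    show y (σ i) ∈ P.map A
    refine ⟨(t i)⁻¹ • y i, P.smul_mem _ hi, ?_⟩
    rw [map_smul, ht i, smul_smul, inv_mul_cancel₀ (ht0 i), one_smul]
  have h2 : (T ∩ T').ncard ≤ 1 := by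
    rw [Set.ncard_le_one (Set.toFinite _)]
    rintro i ⟨hi, hi'⟩ j ⟨hj, hj'⟩
    by_contra hij
    have hlin : LinearIndependent ℂ ![y i, y j] := by
      rw [LinearIndependent.pair_iff]
      intro a b hab
      have ha : a = 0 := by
        by_contra ha
        refine hne i j hij (-(a⁻¹ * b)) ?_
        have h3 : a⁻¹ • (a • y i + b • y j) = 0 := by rw [hab, smul_zero]
        rw [smul_add, smul_smul, smul_smul, inv_mul_cancel₀ ha, one_smul] at h3
        rw [neg_smul]
        exact eq_neg_of_add_eq_zero_left h3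
      subst ha
      rw [zero_smul, zero_add] at hab
      exact ⟨rfl, (smul_eq_zero.1 hab).resolve_right (hy0 j)⟩
    have hfr : Module.finrank ℂ (Submodule.span ℂ (Set.range ![y i, y j])) = 2 := by
      rw [finrank_span_eq_card hlin, Fintype.card_fin]
    have hle : Submodule.span ℂ (Set.range ![y i, y j]) ≤ P := by
      rw [Submodule.span_le]
      rintro _ ⟨k, rfl⟩
      fin_cases k
      · exact hi
      · exact hj
    have hle' : Submodule.span ℂ (Set.range ![y i, y j]) ≤ P.map A := by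
      rw [Submodule.span_le]
      rintro _ ⟨k, rfl⟩
      fin_cases k
      · exact hi'
      · exact hj'
    have he1 := Submodule.eq_of_le_of_finrank_le hle (by rw [hfr, hP])
    have he2 := Submodule.eq_of_le_of_finrank_le hle' (by
      rw [hfr, ← hP]
      exact Submodule.finrank_map_le A P)
    exact hPA (he2.symm.trans he1)
  have h3 := Set.ncard_union_add_ncard_inter T T' (Set.toFinite _) (Set.toFinite _)
  have h4 : (T ∪ T').ncard ≤ Nat.card κ := by
    rw [← Set.ncard_univ]
    exact Set.ncard_le_ncard (Set.subset_univ _) (Set.toFinite _)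
  omega

theorem finrank_pair {w s : Fin M → ℂ} (hs0 : s ≠ 0) (hs : w ∉ Submodule.span ℂ {s}) :
    Module.finrank ℂ (Submodule.span ℂ {w, s}) = 2 := by
  have hlin : LinearIndependent ℂ ![w, s] := by
    rw [LinearIndependent.pair_iff]
    intro a b hab
    have ha : a = 0 := by
      by_contra ha
      refine hs (Submodule.mem_span_singleton.2 ⟨-(a⁻¹ * b), ?_⟩)
      have h3 : a⁻¹ • (a • w + b • s) = 0 := by rw [hab, smul_zero]
      rw [smul_add, smul_smul, smul_smul, inv_mul_cancel₀ ha, one_smul] at h3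
      rw [neg_smul]
      exact (eq_neg_of_add_eq_zero_left h3).symm
    subst ha
    rw [zero_smul, zero_add] at hab
    exact ⟨rfl, (smul_eq_zero.1 hab).resolve_right hs0⟩
  have h1 := finrank_span_eq_card hlin
  rw [Fintype.card_fin] at h1
  have h2 : Set.range ![w, s] = {w, s} := by
    ext z
    simp only [Set.mem_range, Fin.exists_fin_two, Matrix.cons_val_zero, Matrix.cons_val_one,
      Set.mem_insert_iff, Set.mem_singleton_iff]
    exact or_congr eq_comm eq_comm
  rw [h2] at h1
  exact h1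

section

variable {G : Type} [Group G] (ρ : Representation ℂ G (Fin M → ℂ))

/-- the elements acting by scalars -/
def scalars : Subgroup G where
  carrier := {g | ∃ c : ℂ, ∀ x, ρ g x = c • x}
  mul_mem' := by
    rintro a b ⟨c, hc⟩ ⟨c', hc'⟩
    refine ⟨c * c', fun x => ?_⟩
    rw [map_mul, Module.End.mul_apply, hc', map_smul, hc, smul_smul, mul_comm]
  one_mem' := ⟨1, fun x => by simp⟩
  inv_mem' := by
    rintro a ⟨c, hc⟩
    refine ⟨c⁻¹, fun x => ?_⟩
    have h1 : c • ρ a⁻¹ x = x := by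
      rw [← hc, ← Module.End.mul_apply, ← map_mul, mul_inv_cancel, map_one, Module.End.one_apply]
    by_cases h0 : c = 0
    · rw [h0, zero_smul] at h1
      rw [← h1]
      simp
    · conv_rhs => rw [← h1]
      rw [smul_smul, inv_mul_cancel₀ h0, one_smul]

theorem mem_scalars {g : G} : g ∈ scalars ρ ↔ ∃ c : ℂ, ∀ x, ρ g x = c • x := Iff.rfl

theorem rho_injective (g : G) : Function.Injective (ρ g) := by
  intro x y h
  have h1 : ∀ z, ρ g⁻¹ (ρ g z) = z := fun z => by
    rw [← Module.End.mul_apply, ← map_mul, inv_mul_cancel, map_one, Module.End.one_apply]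
  rw [← h1 x, ← h1 y, h]

theorem rho_inv (g : G) (z : Fin M → ℂ) : ρ g⁻¹ (ρ g z) = z := by
  rw [← Module.End.mul_apply, ← map_mul, inv_mul_cancel, map_one, Module.End.one_apply]

/-- the representative of a coset -/
noncomputable def rep (q : G ⧸ scalars ρ) : G := Quotient.out q

theorem rep_eq (q : G ⧸ scalars ρ) : ((rep ρ q : G) : G ⧸ scalars ρ) = q := QuotientGroup.out_eq' q

theorem exists_scalar (g : G) :
    ∃ c : ℂ, ∀ x, ρ g x = c • ρ (rep ρ (g : G ⧸ scalars ρ)) x := by
  have h : (rep ρ (g : G ⧸ scalars ρ))⁻¹ * g ∈ scalars ρ := by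
    rw [← QuotientGroup.eq, rep_eq]
  obtain ⟨c, hc⟩ := h
  refine ⟨c, fun x => ?_⟩
  rw [← map_smul, ← hc, ← Module.End.mul_apply, ← map_mul, mul_inv_cancel_left]

variable [Finite G] {J : Type} (f : J → MvPolynomial (Fin M) ℂ)

/-- the hypotheses on the common zero locus of the forms `f j` -/
structure Free (d : J → ℕ) : Prop where
  hom : ∀ j, (f j).IsHomogeneous (d j)
  stable : ∀ (g : G) (v : Fin M → ℂ), (∀ j, eval v (f j) = 0) → ∀ j, eval (ρ g v) (f j) = 0
  stableT : ∀ (g : G) (v u : Fin M → ℂ), (∀ j, eval v (f j) = 0) → (∀ j, der v u (f j) = 0) →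
    ∀ j, der (ρ g v) (ρ g u) (f j) = 0
  free : ∀ v : Fin M → ℂ, v ≠ 0 → (∀ j, eval v (f j) = 0) → ∀ (g : G) (μ : ℂ),
    ρ g v = μ • v → g ∈ scalars ρ

variable {ρ f} {d : J → ℕ}

omit [Finite G] in
theorem orbit_ne (hS : Free ρ f d) {v : Fin M → ℂ} (hv : v ≠ 0) (hfv : ∀ j, eval v (f j) = 0)
    {q q' : G ⧸ scalars ρ} (h : q ≠ q') (t : ℂ) : ρ (rep ρ q) v ≠ t • ρ (rep ρ q') v := by
  intro heq
  have h1 : ρ ((rep ρ q')⁻¹ * rep ρ q) v = t • v := by
    rw [map_mul, Module.End.mul_apply, heq, map_smul, rho_inv]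
  have h2 := hS.free v hv hfv _ _ h1
  rw [← QuotientGroup.eq, rep_eq, rep_eq] at h2
  exact h h2.symm

omit [Finite G] in
theorem rep_ne_zero {v : Fin M → ℂ} (hv : v ≠ 0) (g : G) : ρ g v ≠ 0 := by
  intro h
  exact hv (rho_injective ρ g (by rw [h, map_zero]))

omit [Finite G] in
/-- the plane is not contained in the variety -/
theorem exists_nonzero_on (hS : Free ρ f d) {P : Submodule ℂ (Fin M → ℂ)}
    (hP : Module.finrank ℂ P = 2) {g : G} (hg : g ∉ scalars ρ) (hst : P.map (ρ g) = P) :
    ∃ j, ∃ y ∈ P, eval y (f j) ≠ 0 := by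
  have hmaps : ∀ x ∈ P, ρ g x ∈ P := fun x hx => by
    rw [← hst]
    exact Submodule.mem_map_of_mem hx
  have : Nontrivial P := by
    apply Module.nontrivial_of_finrank_pos (R := ℂ)
    omega
  obtain ⟨μ, hμ⟩ := Module.End.exists_eigenvalue (LinearMap.restrict (ρ g) hmaps)
  obtain ⟨⟨x, hx⟩, hx1⟩ := hμ.exists_hasEigenvector
  have hx2 := hx1.apply_eq_smul
  have hx3 : ρ g x = μ • x := congrArg Subtype.val hx2
  have hx0 : x ≠ 0 := fun h => hx1.2 (Subtype.ext h)
  by_contra hcon
  push Not at hcon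
  exact hg (hS.free x hx0 (fun j => hcon j x hx) g μ hx3)

theorem card_ne {κ : Type} [Finite κ] (k : κ) : Nat.card {i : κ // i ≠ k} + 1 = Nat.card κ := by
  classical
  have := Fintype.ofFinite κ
  rw [Nat.card_eq_fintype_card, Nat.card_eq_fintype_card, Fintype.card_subtype, Finset.filter_ne',
    Finset.card_erase_of_mem (Finset.mem_univ k), Finset.card_univ]
  have : 0 < Fintype.card κ := Fintype.card_pos_iff.2 ⟨k⟩
  omega

theorem ncard_ne {κ : Type} [Finite κ] (k : κ) (p : κ → Prop) (hk : p k) :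
    {i : {i : κ // i ≠ k} | p i}.ncard + 1 = {i | p i}.ncard := by
  classical
  have h1 : {i | p i} = insert k (Subtype.val '' {i : {i : κ // i ≠ k} | p i}) := by
    ext i
    simp only [Set.mem_ofPred_eq, Set.mem_insert_iff, Set.mem_image, Subtype.exists,
      exists_and_right, exists_eq_right]
    constructor
    · intro hi
      by_cases h : i = k
      · exact Or.inl h
      · exact Or.inr ⟨h, hi⟩
    · rintro (rfl | ⟨_, h⟩)
      · exact hk
      · exact h
  rw [h1, Set.ncard_insert_of_notMem, Set.ncard_image_of_injective _ Subtype.val_injective]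
  rintro ⟨⟨i, hi⟩, _, h⟩
  exact hi h

end

end Pool.Agent.N212.FQ
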