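import Pool.Agent.N212.FQ.D

/-!
# Project FQ: sections on étale quotients
-/

set_option autoImplicit false

namespace Pool.Agent.N212.FQ

open MvPolynomial

variable {M : ℕ} {G : Type} [Group G] [Finite G] {ρ : Representation ℂ G (Fin M → ℂ)}
  {J : Type} {f : J → MvPolynomial (Fin M) ℂ} {d : J → ℕ}

omit [Finite G] in
/-- vanishing at a representative -/
theorem eval_of_rep {F : MvPolynomial (Fin M) ℂ} {e : ℕ} (hF : F.IsHomogeneous e) {v : Fin M → ℂ}
    (g : G) (h : eval (ρ (rep ρ (g : G ⧸ scalars ρ)) v) F = 0) : eval (ρ g v) F = 0 := by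
  obtain ⟨c, hc⟩ := exists_scalar ρ g
  rw [hc, eval_smul_of_isHomogeneous hF, h, mul_zero]

omit [Finite G] in
theorem der_of_rep {F : MvPolynomial (Fin M) ℂ} {e : ℕ} (hF : F.IsHomogeneous e)
    {v u : Fin M → ℂ} (g : G)
    (h : der (ρ (rep ρ (g : G ⧸ scalars ρ)) v) (ρ (rep ρ (g : G ⧸ scalars ρ)) u) F = 0) :
    der (ρ g v) (ρ g u) F = 0 := by
  obtain ⟨c, hc⟩ := exists_scalar ρ g
  rw [hc, hc, der_smul_smul hF, h, mul_zero]

omit [Finite G] in
theorem mk_ne_one {g : G} (hg : g ∉ scalars ρ) :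
    (g : G ⧸ scalars ρ) ≠ ((1 : G) : G ⧸ scalars ρ) := by
  intro h
  rw [eq_comm, QuotientGroup.eq, inv_one, one_mul] at h
  exact hg h

omit [Finite G] in
/-- `v` is a multiple of the vector of the trivial coset -/
theorem rep_one (v : Fin M → ℂ) : ∃ c : ℂ, v = c • ρ (rep ρ ((1 : G) : G ⧸ scalars ρ)) v := by
  obtain ⟨c, hc⟩ := exists_scalar ρ (1 : G)
  exact ⟨c, by simpa using hc v⟩

omit [Finite G] in
theorem notMem_span {v : Fin M → ℂ} (hS : Free ρ f d) (hv : v ≠ 0)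
    (hfv : ∀ j, eval v (f j) = 0) {q : G ⧸ scalars ρ} (hq : q ≠ ((1 : G) : G ⧸ scalars ρ)) :
    v ∉ Submodule.span ℂ {ρ (rep ρ q) v} := by
  intro h
  obtain ⟨a, ha⟩ := Submodule.mem_span_singleton.1 h
  obtain ⟨c, hc⟩ := rep_one (ρ := ρ) v
  have hc0 : c ≠ 0 := by
    rintro rfl
    rw [zero_smul] at hc
    exact hv hc
  refine orbit_ne hS hv hfv (Ne.symm hq) (c⁻¹ * a) ?_
  rw [← smul_smul, ha]
  conv_rhs => rw [hc]
  rw [smul_smul, inv_mul_cancel₀ hc0, one_smul]

/-- no base points -/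
theorem core_free (hS : Free ρ f d) {e : ℕ} (he : (scalars ρ).index ≤ e + 1)
    {v : Fin M → ℂ} (hv : v ≠ 0) (hfv : ∀ j, eval v (f j) = 0) :
    ∃ F : MvPolynomial (Fin M) ℂ, F.IsHomogeneous e ∧ eval v F ≠ 0 ∧
      ∀ g : G, g ∉ scalars ρ → eval (ρ g v) F = 0 := by
  have hcard := card_ne ((1 : G) : G ⧸ scalars ρ)
  rw [← Subgroup.index_eq_card] at hcard
  obtain ⟨F, h1, h2, h3⟩ := form_few (e := e) hv
    (fun q : {q : G ⧸ scalars ρ // q ≠ ((1 : G) : G ⧸ scalars ρ)} => ρ (rep ρ q.1) v)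
    (fun q => notMem_span hS hv hfv q.2) (by omega)
  exact ⟨F, h1, h2, fun g hg => eval_of_rep h1 g (h3 ⟨_, mk_ne_one hg⟩)⟩

/-- no base points, twice as many group elements -/
theorem core_free2 (hpair : S_PAIR) (hbin : S_BIN) (hS : Free ρ f d) {e : ℕ}
    (he : (scalars ρ).index ≤ 2 * e + 1) (hde : ∀ j, d j ≤ e + 1)
    {v : Fin M → ℂ} (hv : v ≠ 0) (hfv : ∀ j, eval v (f j) = 0) :
    ∃ F : MvPolynomial (Fin M) ℂ, F.IsHomogeneous e ∧ eval v F ≠ 0 ∧
      ∀ g : G, g ∉ scalars ρ → eval (ρ g v) F = 0 := by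
  classical
  set Q := G ⧸ scalars ρ with hQ
  set one : Q := ((1 : G) : G ⧸ scalars ρ) with hone
  let y : Q → Fin M → ℂ := fun q => ρ (rep ρ q) v
  have hy0 : ∀ k, y k ≠ 0 := fun q => rep_ne_zero hv _
  have hne : ∀ i j, i ≠ j → ∀ t : ℂ, y i ≠ t • y j := fun q q' h t => orbit_ne hS hv hfv h t
  have hperm : ∀ (g : G) (i : Q), ∃ (j : Q) (t : ℂ), ρ g (y i) = t • y j := by
    intro g q
    obtain ⟨c, hc⟩ := exists_scalar ρ (g * rep ρ q)
    refine ⟨QuotientGroup.mk (g * rep ρ q), c, ?_⟩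
    change ρ g (ρ (rep ρ q) v) = _
    rw [← Module.End.mul_apply, ← map_mul]
    exact hc v
  have hcardQ : Nat.card Q = (scalars ρ).index := by
    rw [Subgroup.index_eq_card]
  have hcard := card_ne one
  have hv0 : ∀ k : Q, k ≠ one → v ∉ Submodule.span ℂ {y k} := fun k hk => notMem_span hS hv hfv hk
  have hfin : (∃ F : MvPolynomial (Fin M) ℂ, F.IsHomogeneous e ∧ eval v F ≠ 0 ∧
      ∀ i : {k : Q // k ≠ one}, eval (y i.1) F = 0) → ∃ F : MvPolynomial (Fin M) ℂ,
      F.IsHomogeneous e ∧ eval v F ≠ 0 ∧ ∀ g : G, g ∉ scalars ρ → eval (ρ g v) F = 0 := by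
    rintro ⟨F, h1, h2, h3⟩
    exact ⟨F, h1, h2, fun g hg => eval_of_rep h1 g (h3 ⟨_, mk_ne_one hg⟩)⟩
  refine hfin ?_
  by_cases hcls : ∀ i : {k : Q // k ≠ one},
      {j : {k : Q // k ≠ one} | y j.1 ∈ Submodule.span ℂ {v, y i.1}}.ncard ≤ e
  · exact form_points hpair hv (fun k : {k : Q // k ≠ one} => y k.1) (fun k => hy0 _)
      (fun k => hv0 k.1 k.2) (by omega) hcls
  push Not at hcls
  obtain ⟨i, hi⟩ := hcls
  set P := Submodule.span ℂ {v, y i.1} with hP
  have hvP : v ∈ P := Submodule.subset_span (by simp)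
  have hP2 : Module.finrank ℂ P = 2 := finrank_pair (hy0 _) (hv0 i.1 i.2)
  have hk0 : y one ∈ P := by
    obtain ⟨c, hc⟩ := rep_one (ρ := ρ) v
    have hc0 : c ≠ 0 := by
      rintro rfl
      rw [zero_smul] at hc
      exact hv hc
    have : y one = c⁻¹ • v := by
      conv_rhs => rw [hc]
      rw [smul_smul, inv_mul_cancel₀ hc0, one_smul]
    rw [this]
    exact P.smul_mem _ hvP
  have hncard := ncard_ne one (fun k => y k ∈ P) hk0
  have hst : ∀ g : G, P.map (ρ g) = P := fun g =>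
    stable_plane y hne hy0 (ρ g) (rho_injective ρ g) (hperm g) P hP2 (by omega)
  have hmaps : ∀ g : G, ∀ x ∈ P, ρ g x ∈ P := fun g x hx => by
    rw [← hst g]
    exact Submodule.mem_map_of_mem hx
  have hg : ∃ g : G, g ∉ scalars ρ := by
    refine ⟨rep ρ i.1, fun h => i.2 ?_⟩
    refine (rep_eq ρ i.1).symm.trans ?_
    refine (QuotientGroup.eq.2 ?_).symm
    rw [inv_one, one_mul]
    exact h
  obtain ⟨g, hg⟩ := hg
  obtain ⟨j, hj⟩ := exists_nonzero_on hS hP2 hg (hst g)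
  obtain ⟨φ⟩ := Finite.exists_equiv_fin Q |>.choose_spec
  have hcardφ : Nat.card Q = (Finite.exists_equiv_fin Q).choose := by
    rw [Nat.card_congr φ, Nat.card_eq_fintype_card, Fintype.card_fin]
  have hbound := hbin M (d j) (f j) (hS.hom j) P hP2 _ (fun a => y (φ.symm a))
    (fun a => hmaps _ _ hvP)
    (fun a => hy0 _) (fun a b hab => hne _ _ fun h => hab (φ.symm.injective h))
    (fun a => hS.stable _ _ hfv j) hj
  have := hde j
  exact form_few hv (fun k : {k : Q // k ≠ one} => y k.1) (fun k => hv0 k.1 k.2) (by omega)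

/-- points are separated -/
theorem core_points (hpair : S_PAIR) (hbin : S_BIN) (hS : Free ρ f d) {e : ℕ}
    (he : (scalars ρ).index ≤ e) (hde : ∀ j, d j ≤ e + 1)
    {v w : Fin M → ℂ} (hv : v ≠ 0) (hw : w ≠ 0) (hfv : ∀ j, eval v (f j) = 0)
    (hfw : ∀ j, eval w (f j) = 0) (hvw : ∀ (g : G) (t : ℂ), w ≠ t • ρ g v) :
    ∃ F : MvPolynomial (Fin M) ℂ, F.IsHomogeneous e ∧ eval w F ≠ 0 ∧
      (∀ g : G, g ∉ scalars ρ → eval (ρ g w) F = 0) ∧ ∀ g : G, eval (ρ g v) F = 0 := by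
  classical
  set Q := G ⧸ scalars ρ with hQ
  set one : Q := ((1 : G) : G ⧸ scalars ρ) with hone
  let κ := Q ⊕ Q
  let y : κ → Fin M → ℂ := Sum.elim (fun q => ρ (rep ρ q) v) (fun q => ρ (rep ρ q) w)
  have hy0 : ∀ k, y k ≠ 0 := by
    rintro (q | q)
    · exact rep_ne_zero hv _
    · exact rep_ne_zero hw _
  have hcross : ∀ (g h : G) (t : ℂ), ρ g w ≠ t • ρ h v := by
    intro g h t heq
    refine hvw (g⁻¹ * h) t ?_
    rw [map_mul, Module.End.mul_apply, ← map_smul, ← heq, rho_inv]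
  have hne : ∀ i j, i ≠ j → ∀ t : ℂ, y i ≠ t • y j := by
    rintro (q | q) (q' | q') hij t
    · exact orbit_ne hS hv hfv (fun h => hij (by rw [h])) t
    · intro heq
      have ht : t ≠ 0 := by
        rintro rfl
        rw [zero_smul] at heq
        exact hy0 _ heq
      refine hcross (rep ρ q') (rep ρ q) t⁻¹ ?_
      change ρ (rep ρ q) v = t • ρ (rep ρ q') w at heq
      rw [heq, smul_smul, inv_mul_cancel₀ ht, one_smul]
    · exact hcross _ _ t
    · exact orbit_ne hS hw hfw (fun h => hij (by rw [h])) t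
  have hperm : ∀ (g : G) (i : κ), ∃ (j : κ) (t : ℂ), ρ g (y i) = t • y j := by
    rintro g (q | q)
    · obtain ⟨c, hc⟩ := exists_scalar ρ (g * rep ρ q)
      refine ⟨Sum.inl (QuotientGroup.mk (g * rep ρ q)), c, ?_⟩
      change ρ g (ρ (rep ρ q) v) = _
      rw [← Module.End.mul_apply, ← map_mul]
      exact hc v
    · obtain ⟨c, hc⟩ := exists_scalar ρ (g * rep ρ q)
      refine ⟨Sum.inr (QuotientGroup.mk (g * rep ρ q)), c, ?_⟩
      change ρ g (ρ (rep ρ q) w) = _
      rw [← Module.End.mul_apply, ← map_mul]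
      exact hc w
  have hcardκ : Nat.card κ = 2 * (scalars ρ).index := by
    rw [Nat.card_sum, Subgroup.index_eq_card]
    ring
  let k0 : κ := Sum.inr one
  have hcard := card_ne k0
  have hw0 : ∀ k : κ, k ≠ k0 → w ∉ Submodule.span ℂ {y k} := by
    intro k hk h
    obtain ⟨a, ha⟩ := Submodule.mem_span_singleton.1 h
    obtain ⟨c, hc⟩ := rep_one (ρ := ρ) w
    have hc0 : c ≠ 0 := by
      rintro rfl
      rw [zero_smul] at hc
      exact hw hc
    refine hne k0 k (Ne.symm hk) (c⁻¹ * a) ?_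
    rw [← smul_smul, ha]
    conv_rhs => rw [hc]
    rw [smul_smul, inv_mul_cancel₀ hc0, one_smul]
    rfl
  have hfin : (∃ F : MvPolynomial (Fin M) ℂ, F.IsHomogeneous e ∧ eval w F ≠ 0 ∧
      ∀ i : {k : κ // k ≠ k0}, eval (y i.1) F = 0) → ∃ F : MvPolynomial (Fin M) ℂ,
      F.IsHomogeneous e ∧ eval w F ≠ 0 ∧
      (∀ g : G, g ∉ scalars ρ → eval (ρ g w) F = 0) ∧ ∀ g : G, eval (ρ g v) F = 0 := by
    rintro ⟨F, h1, h2, h3⟩
    refine ⟨F, h1, h2, fun g hg => eval_of_rep h1 g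
      (h3 ⟨Sum.inr _, fun h => mk_ne_one hg (Sum.inr_injective h)⟩), fun g => eval_of_rep h1 g
      (h3 ⟨Sum.inl _, fun h => by simp [k0] at h⟩)⟩
  refine hfin ?_
  by_cases hcls : ∀ i : {k : κ // k ≠ k0},
      {j : {k : κ // k ≠ k0} | y j.1 ∈ Submodule.span ℂ {w, y i.1}}.ncard ≤ e
  · exact form_points hpair hw (fun k : {k : κ // k ≠ k0} => y k.1) (fun k => hy0 _)
      (fun k => hw0 k.1 k.2) (by omega) hcls
  push Not at hcls
  obtain ⟨i, hi⟩ := hcls
  set P := Submodule.span ℂ {w, y i.1} with hP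
  have hwP : w ∈ P := Submodule.subset_span (by simp)
  have hP2 : Module.finrank ℂ P = 2 := finrank_pair (hy0 _) (hw0 i.1 i.2)
  have hk0 : y k0 ∈ P := by
    obtain ⟨c, hc⟩ := rep_one (ρ := ρ) w
    have hc0 : c ≠ 0 := by
      rintro rfl
      rw [zero_smul] at hc
      exact hw hc
    have : y k0 = c⁻¹ • w := by
      conv_rhs => rw [hc]
      rw [smul_smul, inv_mul_cancel₀ hc0, one_smul]
      rfl
    rw [this]
    exact P.smul_mem _ hwP
  have hncard := ncard_ne k0 (fun k => y k ∈ P) hk0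
  have hst : ∀ g : G, P.map (ρ g) = P := fun g =>
    stable_plane y hne hy0 (ρ g) (rho_injective ρ g) (hperm g) P hP2 (by omega)
  have hmaps : ∀ g : G, ∀ x ∈ P, ρ g x ∈ P := fun g x hx => by
    rw [← hst g]
    exact Submodule.mem_map_of_mem hx
  -- some point of the orbit of `v` is on the plane
  have hex : ∃ q : Q, y (Sum.inl q) ∈ P := by
    by_contra hcon
    push Not at hcon
    have h1 : {k : κ | y k ∈ P} ⊆ Set.range (Sum.inr : Q → κ) := by
      rintro (q | q) hq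
      · exact absurd hq (hcon q)
      · exact ⟨q, rfl⟩
    have h2 := Set.ncard_le_ncard h1 (Set.toFinite _)
    have h3 : (Set.range (Sum.inr : Q → κ)).ncard = (scalars ρ).index := by
      rw [← Set.image_univ, Set.ncard_image_of_injective _ Sum.inr_injective, Set.ncard_univ,
        Subgroup.index_eq_card]
    omega
  have hvP : v ∈ P := by
    obtain ⟨q, hq⟩ := hex
    have := hmaps (rep ρ q)⁻¹ _ hq
    change ρ (rep ρ q)⁻¹ (ρ (rep ρ q) v) ∈ P at this
    rwa [rho_inv] at this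
  have hall : ∀ k, y k ∈ P := by
    rintro (q | q)
    · exact hmaps _ _ hvP
    · exact hmaps _ _ hwP
  -- the group is not trivial
  have hg : ∃ g : G, g ∉ scalars ρ := by
    by_contra hcon
    push Not at hcon
    have h1 : scalars ρ = ⊤ := by
      rw [eq_top_iff]
      exact fun g _ => hcon g
    have h2 : (scalars ρ).index = 1 := by rw [h1, Subgroup.index_top]
    have h3 : {k : κ | y k ∈ P}.ncard ≤ Nat.card κ := by
      rw [← Set.ncard_univ]
      exact Set.ncard_le_ncard (Set.subset_univ _) (Set.toFinite _)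
    omega
  obtain ⟨g, hg⟩ := hg
  obtain ⟨j, hj⟩ := exists_nonzero_on hS hP2 hg (hst g)
  obtain ⟨φ⟩ := Finite.exists_equiv_fin κ |>.choose_spec
  have hcardφ : Nat.card κ = (Finite.exists_equiv_fin κ).choose := by
    rw [Nat.card_congr φ, Nat.card_eq_fintype_card, Fintype.card_fin]
  have hbound := hbin M (d j) (f j) (hS.hom j) P hP2 _ (fun a => y (φ.symm a)) (fun a => hall _)
    (fun a => hy0 _) (fun a b hab => hne _ _ fun h => hab (φ.symm.injective h))
    (fun a => by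
      rcases hφa : φ.symm a with q | q
      · exact hS.stable _ _ hfv j
      · exact hS.stable _ _ hfw j) hj
  have := hde j
  exact form_few hw (fun k : {k : κ // k ≠ k0} => y k.1) (fun k => hw0 k.1 k.2) (by omega)

/-- tangent vectors are separated -/
theorem core_tangents (hpair : S_PAIR) (hbin2 : S_BIN2) (hS : Free ρ f d) {e : ℕ} (he0 : 1 ≤ e)
    (he : (scalars ρ).index ≤ e) (hde : ∀ j, d j ≤ e + 1)
    {v u : Fin M → ℂ} (hv : v ≠ 0) (hfv : ∀ j, eval v (f j) = 0)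
    (hfu : ∀ j, der v u (f j) = 0) (hvu : ∀ t : ℂ, u ≠ t • v) :
    ∃ F : MvPolynomial (Fin M) ℂ, F.IsHomogeneous e ∧ der v u F ≠ 0 ∧
      (∀ g : G, eval (ρ g v) F = 0) ∧ ∀ g : G, g ∉ scalars ρ → der (ρ g v) (ρ g u) F = 0 := by
  classical
  set Q := G ⧸ scalars ρ with hQ
  set one : Q := ((1 : G) : G ⧸ scalars ρ) with hone
  let y : Q → Fin M → ℂ := fun q => ρ (rep ρ q) v
  let z : Q → Fin M → ℂ := fun q => ρ (rep ρ q) u
  have hy0 : ∀ k, y k ≠ 0 := fun q => rep_ne_zero hv _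
  have hne : ∀ i j, i ≠ j → ∀ t : ℂ, y i ≠ t • y j := fun q q' h t => orbit_ne hS hv hfv h t
  have hperm : ∀ (g : G) (i : Q), ∃ (j : Q) (t : ℂ), ρ g (y i) = t • y j := by
    intro g q
    obtain ⟨c, hc⟩ := exists_scalar ρ (g * rep ρ q)
    refine ⟨QuotientGroup.mk (g * rep ρ q), c, ?_⟩
    change ρ g (ρ (rep ρ q) v) = _
    rw [← Module.End.mul_apply, ← map_mul]
    exact hc v
  have hcardQ : Nat.card Q = (scalars ρ).index := by
    rw [Subgroup.index_eq_card]
  have hcard := card_ne one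
  have hv0 : ∀ k : Q, k ≠ one → v ∉ Submodule.span ℂ {y k} := fun k hk => notMem_span hS hv hfv hk
  obtain ⟨l0, hl0, hl0'⟩ := exists_functional (Submodule.span ℂ {v}) (w := u) (by
    intro h
    obtain ⟨t, ht⟩ := Submodule.mem_span_singleton.1 h
    exact hvu t ht.symm)
  have hl0v : l0 v = 0 := hl0' v (Submodule.mem_span_singleton_self v)
  have hfin : (∃ F : MvPolynomial (Fin M) ℂ, F.IsHomogeneous (e - 1) ∧ eval v F ≠ 0 ∧
      ∀ i : {k : Q // k ≠ one}, eval (y i.1) F = 0 ∧ der (y i.1) (z i.1) F = 0) →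
      ∃ F : MvPolynomial (Fin M) ℂ, F.IsHomogeneous e ∧ der v u F ≠ 0 ∧
      (∀ g : G, eval (ρ g v) F = 0) ∧ ∀ g : G, g ∉ scalars ρ → der (ρ g v) (ρ g u) F = 0 := by
    rintro ⟨F, h1, h2, h3⟩
    have hhom : (lin l0 * F).IsHomogeneous e := by
      have := (lin_isHomogeneous l0).mul h1
      rwa [show 1 + (e - 1) = e by omega] at this
    refine ⟨lin l0 * F, hhom, ?_, ?_, ?_⟩
    · rw [der_mul, eval_lin, hl0v, zero_mul, zero_add, der_lin]
      exact mul_ne_zero h2 hl0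
    · intro g
      by_cases hg : g ∈ scalars ρ
      · obtain ⟨c, hc⟩ := hg
        rw [hc, map_mul, eval_lin, map_smul, hl0v, smul_zero, zero_mul]
      · refine eval_of_rep hhom g ?_
        rw [map_mul, (h3 ⟨_, mk_ne_one hg⟩).1, mul_zero]
    · intro g hg
      refine der_of_rep hhom g ?_
      have h4 := h3 ⟨_, mk_ne_one hg⟩
      rw [der_mul, h4.1, h4.2, mul_zero, zero_mul, add_zero]
  refine hfin ?_
  by_cases hcls : ∀ i : {k : Q // k ≠ one},
      2 * {j : {k : Q // k ≠ one} | y j.1 ∈ Submodule.span ℂ {v, y i.1}}.ncard ≤ e - 1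
  · obtain ⟨F, h1, h2, h3⟩ := form_double (e := e - 1) hpair hv
      (fun k : {k : Q // k ≠ one} => y k.1) (fun k => hy0 _) (fun k => hv0 k.1 k.2) (by omega) hcls
    exact ⟨F, h1, h2, fun i => ⟨(h3 i).1, (h3 i).2 _⟩⟩
  push Not at hcls
  obtain ⟨i, hi⟩ := hcls
  set P := Submodule.span ℂ {v, y i.1} with hP
  have hvP : v ∈ P := Submodule.subset_span (by simp)
  have hP2 : Module.finrank ℂ P = 2 := finrank_pair (hy0 _) (hv0 i.1 i.2)
  have hk0 : y one ∈ P := by
    obtain ⟨c, hc⟩ := rep_one (ρ := ρ) v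
    have hc0 : c ≠ 0 := by
      rintro rfl
      rw [zero_smul] at hc
      exact hv hc
    have : y one = c⁻¹ • v := by
      conv_rhs => rw [hc]
      rw [smul_smul, inv_mul_cancel₀ hc0, one_smul]
    rw [this]
    exact P.smul_mem _ hvP
  have hncard := ncard_ne one (fun k => y k ∈ P) hk0
  have hst : ∀ g : G, P.map (ρ g) = P := fun g =>
    stable_plane y hne hy0 (ρ g) (rho_injective ρ g) (hperm g) P hP2 (by omega)
  have hmaps : ∀ g : G, ∀ x ∈ P, ρ g x ∈ P := fun g x hx => by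
    rw [← hst g]
    exact Submodule.mem_map_of_mem hx
  by_cases huP : u ∈ P
  · -- the tangent line of `v` is the stable line
    have hg : ∃ g : G, g ∉ scalars ρ := by
      refine ⟨rep ρ i.1, fun h => i.2 ?_⟩
      refine (rep_eq ρ i.1).symm.trans ?_
      refine (QuotientGroup.eq.2 ?_).symm
      rw [inv_one, one_mul]
      exact h
    obtain ⟨g, hg⟩ := hg
    obtain ⟨j, hj⟩ := exists_nonzero_on hS hP2 hg (hst g)
    obtain ⟨φ⟩ := Finite.exists_equiv_fin Q |>.choose_spec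
    have hcardφ : Nat.card Q = (Finite.exists_equiv_fin Q).choose := by
      rw [Nat.card_congr φ, Nat.card_eq_fintype_card, Fintype.card_fin]
    have hbound := hbin2 M (d j) (f j) (hS.hom j) P hP2 _ (fun a => y (φ.symm a))
      (fun a => z (φ.symm a)) (fun a => hmaps _ _ hvP)
      (fun a => hy0 _) (fun a b hab => hne _ _ fun h => hab (φ.symm.injective h))
      (fun a => hS.stable _ _ hfv j) (fun a => hmaps _ _ huP) (fun a t h => by
        change ρ _ u = t • ρ _ v at h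
        rw [← map_smul] at h
        exact hvu t (rho_injective ρ _ h)) (fun a => hS.stableT _ _ _ hfv hfu j) hj
    have := hde j
    obtain ⟨F, h1, h2, h3⟩ := form_double_few (e := e - 1) hv
      (fun k : {k : Q // k ≠ one} => y k.1) (fun k => hv0 k.1 k.2) (by omega)
    exact ⟨F, h1, h2, fun i => ⟨(h3 i).1, (h3 i).2 _⟩⟩
  · -- the tangent lines meet the stable line in one point each
    refine form_jets (e := e - 1) hv (fun k : {k : Q // k ≠ one} => y k.1)
      (fun k : {k : Q // k ≠ one} => z k.1) (fun k hk => ?_) (by omega)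
    rw [Submodule.mem_span_pair] at hk
    obtain ⟨a, b, hab⟩ := hk
    by_cases hb : b = 0
    · refine hv0 k.1 k.2 (Submodule.mem_span_singleton.2 ⟨a, ?_⟩)
      rw [← hab, hb, zero_smul, add_zero]
    · have h1 : z k.1 ∈ P := by
        have h2 : z k.1 = b⁻¹ • (v - a • y k.1) := by
          rw [← hab, add_sub_cancel_left, smul_smul, inv_mul_cancel₀ hb, one_smul]
        rw [h2]
        exact P.smul_mem _ (P.sub_mem hvP (P.smul_mem _ (hmaps _ _ hvP)))
      have h3 := hmaps (rep ρ k.1)⁻¹ _ h1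
      change ρ (rep ρ k.1)⁻¹ (ρ (rep ρ k.1) u) ∈ P at h3
      rw [rho_inv] at h3
      exact huP h3

end Pool.Agent.N212.FQ
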