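import Pool.Agent.N212.FQ.D
import Pool.Agent.N738.FQ_ORD

/-!
# Project FQ: the order of a group acting freely on a hypersurface
(after the proof of helper738 for linear groups, Pool.Agent.N738.FQ.t_ord)
-/

set_option autoImplicit false

namespace Pool.Agent.N212.FQ

open MvPolynomial

variable {M : ℕ} {G : Type} [Group G] {ρ : Representation ℂ G (Fin M → ℂ)}

instance scalars_normal : (scalars ρ).Normal := by
  refine ⟨fun n hn g => ?_⟩
  obtain ⟨c, hc⟩ := hn
  refine ⟨c, fun x => ?_⟩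
  rw [map_mul, map_mul, Module.End.mul_apply, Module.End.mul_apply, hc, map_smul]
  congr 1
  rw [← Module.End.mul_apply, ← map_mul, mul_inv_cancel, map_one, Module.End.one_apply]

/-- If `θ` is `c ^ k` on the elements acting by the scalar `c` then the order of `G` modulo scalars
divides `k d`. -/
theorem ord_dvd [Finite G] {d k : ℕ} (hM : 2 ≤ M) (hd : 1 ≤ d) (hk : 1 ≤ k)
    {f : MvPolynomial (Fin M) ℂ} (hf : f.IsHomogeneous d)
    (hsemi : ∀ g, ∃ c : ℂ, ∀ x, eval (ρ g x) f = c * eval x f)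
    (hfree : ∀ v : Fin M → ℂ, v ≠ 0 → eval v f = 0 → ∀ (g : G) (μ : ℂ), ρ g v = μ • v →
      g ∈ scalars ρ)
    (θ : G →* ℂˣ) (hθ : ∀ (g : G) (c : ℂ), (∀ x, ρ g x = c • x) → (θ g : ℂ) = c ^ k) :
    Nat.card G ∣ k * d * Nat.card (scalars ρ) := by
  classical
  -- a group element with two independent eigenvectors with the same eigenvalue is a scalar
  have h2 : ∀ (g : G) (x y : Fin M → ℂ) (μ : ℂ), LinearIndependent ℂ ![x, y] →
      ρ g x = μ • x → ρ g y = μ • y → g ∈ scalars ρ := by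
    intro g x y μ hli hx hy
    obtain ⟨s, t, hne, h0⟩ := Pool.Agent.N738.FQ.exists_zero hd hf hli
    refine hfree _ hne h0 g μ ?_
    rw [map_add, map_smul, map_smul, hx, hy, smul_add, smul_comm μ s, smul_comm μ t]
  have hS0 : Nat.card (scalars ρ) ≠ 0 := Nat.card_pos.ne'
  have hkd0 : k * d * Nat.card (scalars ρ) ≠ 0 := by positivity
  rw [← Nat.factorization_prime_le_iff_dvd (Nat.card_pos.ne') hkd0]
  intro p hp
  rw [← hp.pow_dvd_iff_le_factorization hkd0]
  haveI : Fact p.Prime := ⟨hp⟩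
  obtain ⟨S⟩ : Nonempty (Sylow p G) := inferInstance
  rw [← Sylow.card_eq_multiplicity S]
  set N : Subgroup S := (scalars ρ).subgroupOf S with hN
  rcases subsingleton_or_nontrivial (S ⧸ N) with hSN | hSN
  · have h3 : (S : Subgroup G) ≤ scalars ρ := by
      intro g hg
      have h4 : ((⟨g, hg⟩ : S) : S ⧸ N) = ((1 : S) : S ⧸ N) := Subsingleton.elim _ _
      rw [eq_comm, QuotientGroup.eq, inv_one, one_mul] at h4
      exact h4
    exact (Subgroup.card_dvd_of_le h3).trans (Dvd.intro_left _ rfl)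
  -- a central element modulo scalars
  have hPG : IsPGroup p (S ⧸ N) := S.isPGroup'.to_quotient N
  obtain ⟨⟨zb, hzb⟩, hz1⟩ : ∃ z : Subgroup.center (S ⧸ N), z ≠ 1 := by
    haveI := hPG.center_nontrivial
    exact exists_ne 1
  obtain ⟨z, rfl⟩ := QuotientGroup.mk_surjective zb
  have hz1' : (z : G) ∉ scalars ρ := by
    intro h
    refine hz1 (Subtype.ext ?_)
    show (QuotientGroup.mk z : S ⧸ N) = QuotientGroup.mk 1
    rw [eq_comm, QuotientGroup.eq, inv_one, one_mul]
    exact h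
  have hcomm : ∀ g : S, ∃ s : G, s ∈ scalars ρ ∧ (g : G) * z = s * (z * g) := by
    intro g
    have h3 := Subgroup.mem_center_iff.1 hzb (QuotientGroup.mk g)
    rw [← QuotientGroup.mk_mul, ← QuotientGroup.mk_mul, eq_comm, QuotientGroup.eq] at h3
    have h4 : ((z : G) * g)⁻¹ * (g * z) ∈ scalars ρ := h3
    refine ⟨(g * z) * ((z : G) * g)⁻¹, ?_, by group⟩
    have h5 := (scalars_normal (ρ := ρ)).conj_mem _ h4 ((z : G) * g)
    rwa [← mul_assoc, mul_inv_cancel, one_mul] at h5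
  obtain ⟨x, y, μ, ν, hli, hx, hy⟩ := Pool.Agent.N738.FQ.two_eig hM (orderOf_pos (z : G)) (ρ z) (by
    rw [← map_pow, pow_orderOf_eq_one, map_one])
  obtain ⟨hx0, hy0⟩ : x ≠ 0 ∧ y ≠ 0 := by
    constructor
    · exact hli.ne_zero 0
    · exact hli.ne_zero 1
  have hfx : eval x f ≠ 0 := fun h => hz1' (hfree x hx0 h z μ hx)
  have hfy : eval y f ≠ 0 := fun h => hz1' (hfree y hy0 h z ν hy)
  -- the commutator
  have hω : ∀ g : S, ∃ ω : ℂ, (∀ v, ρ g (ρ z v) = ω • ρ z (ρ g v)) ∧ ω ^ k = 1 := by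
    intro g
    obtain ⟨s, ⟨c, hc⟩, hs⟩ := hcomm g
    refine ⟨c, fun v => ?_, ?_⟩
    · rw [← Module.End.mul_apply, ← map_mul, hs, map_mul, Module.End.mul_apply, hc, map_mul,
        Module.End.mul_apply]
    · rw [← hθ s c hc]
      have h3 : θ s = 1 := by
        have h4 := congrArg θ hs
        rw [map_mul, map_mul, map_mul, mul_comm (θ (z : G))] at h4
        exact mul_right_cancel (a := θ s) (b := θ g * θ z) (c := 1) (by rw [← h4, one_mul])
      rw [h3, Units.val_one]
  choose ω hω1 hω2 using hω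
  have hinj : ∀ (g : G) (v : Fin M → ℂ), v ≠ 0 → ρ g v ≠ 0 := fun g v hv => rep_ne_zero hv g
  have hωmul : ∀ g h : S, ω (g * h) = ω g * ω h := by
    intro g h
    have h3 := hω1 (g * h) x
    have h4 : ρ ((g * h : S) : G) (ρ z x) = (ω g * ω h) • ρ z (ρ ((g * h : S) : G) x) := by
      rw [Subgroup.coe_mul, map_mul, Module.End.mul_apply, hω1 h, map_smul, hω1 g, smul_smul,
        Module.End.mul_apply, mul_comm]
    rw [h3] at h4
    exact smul_left_injective ℂ (hinj _ _ (hinj _ _ hx0)) h4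
  haveI : NeZero k := ⟨by omega⟩
  let Ω : S →* rootsOfUnity k ℂ := MonoidHom.mk' (fun g => rootsOfUnity.mkOfPowEq _ (hω2 g)) (by
    intro g h
    refine Subtype.ext (Units.ext ?_)
    rw [Subgroup.coe_mul, Units.val_mul, rootsOfUnity.val_mkOfPowEq_coe,
      rootsOfUnity.val_mkOfPowEq_coe, rootsOfUnity.val_mkOfPowEq_coe, hωmul])
  have hΩ : ∀ g : Ω.ker, ω (g : S) = 1 := by
    intro g
    have h4 := congrArg (fun w : rootsOfUnity k ℂ => ((w : ℂˣ) : ℂ)) (MonoidHom.mem_ker.1 g.2)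
    have h5 : ((Ω g : ℂˣ) : ℂ) = ω g := rootsOfUnity.val_mkOfPowEq_coe _ _
    rw [← h5]
    exact h4
  -- the eigenlines are preserved
  have hpres : ∀ (v : Fin M → ℂ) (lam : ℂ), v ≠ 0 → ρ z v = lam • v → ∀ g : Ω.ker,
      ∃ a : ℂ, ρ ((g : S) : G) v = a • v := by
    intro v lam hv0 hv g
    by_contra hcon
    push Not at hcon
    refine hz1' (h2 z v (ρ ((g : S) : G) v) lam ?_ hv ?_)
    · rw [LinearIndependent.pair_iff' hv0]
      intro a h
      exact hcon a h.symm
    · have h3 := hω1 (g : S) v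
      rw [hΩ g, one_smul] at h3
      rw [← h3, hv, map_smul]
  choose α hα using fun g => hpres x μ hx0 hx g
  choose β hβ using fun g => hpres y ν hy0 hy g
  have hα0 : ∀ g, α g ≠ 0 := by
    intro g h
    have h3 := hα g
    rw [h, zero_smul] at h3
    exact hinj _ _ hx0 h3
  have hβ0 : ∀ g, β g ≠ 0 := by
    intro g h
    have h3 := hβ g
    rw [h, zero_smul] at h3
    exact hinj _ _ hy0 h3
  have hmul : ∀ (v : Fin M → ℂ) (γ : Ω.ker → ℂ), v ≠ 0 →
      (∀ g : Ω.ker, ρ ((g : S) : G) v = γ g • v) → ∀ g h, γ (g * h) = γ g * γ h := by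
    intro v γ hv0 hγ g h
    have h3 : ρ (((g * h : Ω.ker) : S) : G) v = (γ g * γ h) • v := by
      rw [Subgroup.coe_mul, Subgroup.coe_mul, map_mul, Module.End.mul_apply, hγ h, map_smul, hγ g,
        smul_smul, mul_comm]
    rw [hγ (g * h)] at h3
    exact smul_left_injective ℂ hv0 h3
  have hpow : ∀ g, α g ^ d = β g ^ d := by
    intro g
    obtain ⟨c, hc⟩ := hsemi ((g : S) : G)
    have e1 : α g ^ d = c := by
      have h3 := hc x
      rw [hα g, eval_smul_of_isHomogeneous hf] at h3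
      exact mul_right_cancel₀ hfx h3
    have e2 : β g ^ d = c := by
      have h3 := hc y
      rw [hβ g, eval_smul_of_isHomogeneous hf] at h3
      exact mul_right_cancel₀ hfy h3
    rw [e1, e2]
  haveI : NeZero d := ⟨by omega⟩
  have hroot : ∀ g, (β g / α g) ^ d = 1 := by
    intro g
    rw [div_pow, ← hpow g, div_self (pow_ne_zero _ (hα0 g))]
  let χ : Ω.ker →* rootsOfUnity d ℂ :=
    MonoidHom.mk' (fun g => rootsOfUnity.mkOfPowEq _ (hroot g)) (by
    intro g h
    refine Subtype.ext (Units.ext ?_)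
    rw [Subgroup.coe_mul, Units.val_mul, rootsOfUnity.val_mkOfPowEq_coe,
      rootsOfUnity.val_mkOfPowEq_coe, rootsOfUnity.val_mkOfPowEq_coe, hmul x α hx0 hα,
      hmul y β hy0 hβ]
    have := hα0 g
    have := hα0 h
    field_simp)
  have hχ : ∀ g : χ.ker, (((g : Ω.ker) : S) : G) ∈ scalars ρ := by
    intro g
    have h3 : β (g : Ω.ker) / α (g : Ω.ker) = 1 := by
      have h4 := congrArg (fun w : rootsOfUnity d ℂ => ((w : ℂˣ) : ℂ)) (MonoidHom.mem_ker.1 g.2)
      have h5 : ((χ g : ℂˣ) : ℂ) = β (g : Ω.ker) / α (g : Ω.ker) :=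
        rootsOfUnity.val_mkOfPowEq_coe _ _
      rw [← h5]
      exact h4
    rw [div_eq_one_iff_eq (hα0 _)] at h3
    refine h2 _ x y (α g) hli (hα g) ?_
    rw [hβ g, h3]
  have h3 : Nat.card χ.ker ∣ Nat.card (scalars ρ) := by
    let ι : χ.ker →* scalars ρ := MonoidHom.mk' (fun g => ⟨_, hχ g⟩) (fun g h => rfl)
    refine Subgroup.card_dvd_of_injective ι fun g h hgh => ?_
    exact Subtype.ext (Subtype.ext (Subtype.ext (congrArg (fun w : scalars ρ => (w : G)) hgh)))
  have h4 : χ.ker.index ∣ d := by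
    rw [Subgroup.index_ker]
    have := Subgroup.card_subgroup_dvd_card χ.range
    rwa [Complex.card_rootsOfUnity] at this
  have h5 : Ω.ker.index ∣ k := by
    rw [Subgroup.index_ker]
    have := Subgroup.card_subgroup_dvd_card Ω.range
    rwa [Complex.card_rootsOfUnity] at this
  have h6 := Subgroup.card_mul_index χ.ker
  have h7 := Subgroup.card_mul_index Ω.ker
  rw [← h6] at h7
  rw [← h7]
  calc Nat.card χ.ker * χ.ker.index * Ω.ker.index ∣ Nat.card (scalars ρ) * d * k :=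
        mul_dvd_mul (mul_dvd_mul h3 h4) h5
    _ = k * d * Nat.card (scalars ρ) := by ring

end Pool.Agent.N212.FQ
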