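import Pool.Agent.N212.FQ.E
import Pool.Agent.N148.FQ_PAIR
import Pool.Agent.N738.FQ_BIN
import Pool.Agent.N212.FQ.O

/-!
# Project FQ: the theorems on étale quotients
-/

set_option autoImplicit false

namespace Pool.Agent.N212.FQ

open MvPolynomial

variable {M : ℕ} {G : Type} [Group G] {ρ : Representation ℂ G (Fin M → ℂ)}

theorem zero_iff {J : Type} {f : J → MvPolynomial (Fin M) ℂ} {I : Ideal (MvPolynomial (Fin M) ℂ)}
    (hI : I = Ideal.span (Set.range f)) (v : Fin M → ℂ) :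
    (∀ j, eval v (f j) = 0) ↔ ∀ p ∈ I, eval v p = 0 := by
  constructor
  · intro h p hp
    have h1 : I ≤ RingHom.ker (eval v) := by
      rw [hI, Ideal.span_le]
      rintro _ ⟨j, rfl⟩
      exact h j
    exact h1 hp
  · intro h j
    exact h _ (hI ▸ Ideal.subset_span ⟨j, rfl⟩)

theorem tangent_iff {J : Type} {f : J → MvPolynomial (Fin M) ℂ}
    {I : Ideal (MvPolynomial (Fin M) ℂ)} (hI : I = Ideal.span (Set.range f)) {v u : Fin M → ℂ}
    (hv : ∀ p ∈ I, eval v p = 0) :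
    (∀ j, der v u (f j) = 0) ↔ ∀ p ∈ I, der v u p = 0 := by
  constructor
  · intro h p hp
    have hp' := hp
    rw [hI] at hp'
    refine Submodule.span_induction (p := fun p _ => der v u p = 0) ?_ ?_ ?_ ?_ hp'
    · rintro _ ⟨j, rfl⟩
      exact h j
    · simp [der]
    · intro a b _ _ ha hb
      rw [der_add, ha, hb, add_zero]
    · intro a b hb hb0
      have hb' : b ∈ I := by
        rw [hI]
        exact hb
      rw [smul_eq_mul, der_mul, hb0, hv b hb', mul_zero, zero_mul, add_zero]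
  · intro h j
    exact h _ (hI ▸ Ideal.subset_span ⟨j, rfl⟩)

theorem free_of_ideal {J : Type} {f : J → MvPolynomial (Fin M) ℂ} {d : J → ℕ}
    (hf : ∀ j, (f j).IsHomogeneous (d j)) {I : Ideal (MvPolynomial (Fin M) ℂ)}
    (hI : I = Ideal.span (Set.range f)) (hst : ∀ g, ∀ p ∈ I, subst (ρ g) p ∈ I)
    (hfree : ∀ v : Fin M → ℂ, v ≠ 0 → (∀ p ∈ I, eval v p = 0) → ∀ (g : G) (μ : ℂ),
      ρ g v = μ • v → g ∈ scalars ρ) : Free ρ f d where
  hom := hf
  stable g v hv j := by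
    rw [← eval_subst]
    exact (zero_iff hI v).1 hv _ (hst g _ (hI ▸ Ideal.subset_span ⟨j, rfl⟩))
  stableT g v u hv hu j := by
    rw [← der_subst]
    exact (tangent_iff hI ((zero_iff hI v).1 hv)).1 hu _
      (hst g _ (hI ▸ Ideal.subset_span ⟨j, rfl⟩))
  free v hv0 hv := hfree v hv0 ((zero_iff hI v).1 hv)

variable [Finite G]

/-- the elements act on the sections -/
theorem sec_of_avg (χ : G →* ℂˣ) {F : MvPolynomial (Fin M) ℂ} {e : ℕ} (hF : F.IsHomogeneous e) :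
    (avg ρ χ F).IsHomogeneous e ∧
      ∀ (g : G) (x : Fin M → ℂ), eval (ρ g x) (avg ρ χ F) = χ g * eval x (avg ρ χ F) :=
  ⟨avg_isHomogeneous ρ χ hF, avg_semi ρ χ F⟩

/-- freeness -/
theorem freeness {J : Type} {f : J → MvPolynomial (Fin M) ℂ} {d : J → ℕ} (hS : Free ρ f d)
    {e : ℕ} (he : (scalars ρ).index ≤ e + 1) (χ : G →* ℂˣ)
    (hχ : ∀ (g : G) (c : ℂ), (∀ x, ρ g x = c • x) → (χ g : ℂ) = c ^ e)
    {v : Fin M → ℂ} (hv0 : v ≠ 0) (hv : ∀ j, eval v (f j) = 0) :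
    ∃ F : MvPolynomial (Fin M) ℂ, (F.IsHomogeneous e ∧
      ∀ (g : G) (x : Fin M → ℂ), eval (ρ g x) F = χ g * eval x F) ∧ eval v F ≠ 0 := by
  obtain ⟨F, h1, h2, h3⟩ := core_free hS he hv0 hv
  exact ⟨_, sec_of_avg χ h1, avg_ne_zero ρ χ h1 hχ h2 h3⟩

theorem freeness2 {J : Type} {f : J → MvPolynomial (Fin M) ℂ} {d : J → ℕ} (hS : Free ρ f d)
    {e : ℕ} (he : (scalars ρ).index ≤ 2 * e + 1) (hde : ∀ j, d j ≤ e + 1) (χ : G →* ℂˣ)
    (hχ : ∀ (g : G) (c : ℂ), (∀ x, ρ g x = c • x) → (χ g : ℂ) = c ^ e)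
    {v : Fin M → ℂ} (hv0 : v ≠ 0) (hv : ∀ j, eval v (f j) = 0) :
    ∃ F : MvPolynomial (Fin M) ℂ, (F.IsHomogeneous e ∧
      ∀ (g : G) (x : Fin M → ℂ), eval (ρ g x) F = χ g * eval x F) ∧ eval v F ≠ 0 := by
  obtain ⟨F, h1, h2, h3⟩ := core_free2 Pool.Agent.N148.FQ.t_pair Pool.Agent.N738.FQ.t_bin
    hS he hde hv0 hv
  exact ⟨_, sec_of_avg χ h1, avg_ne_zero ρ χ h1 hχ h2 h3⟩

theorem points {J : Type} {f : J → MvPolynomial (Fin M) ℂ} {d : J → ℕ} (hS : Free ρ f d)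
    {e : ℕ} (he : (scalars ρ).index ≤ e) (hde : ∀ j, d j ≤ e + 1) (χ : G →* ℂˣ)
    (hχ : ∀ (g : G) (c : ℂ), (∀ x, ρ g x = c • x) → (χ g : ℂ) = c ^ e)
    {v w : Fin M → ℂ} (hv : v ≠ 0) (hw : w ≠ 0) (hfv : ∀ j, eval v (f j) = 0)
    (hfw : ∀ j, eval w (f j) = 0) (hvw : ∀ (g : G) (t : ℂ), w ≠ t • ρ g v) :
    ∃ F : MvPolynomial (Fin M) ℂ, (F.IsHomogeneous e ∧
      ∀ (g : G) (x : Fin M → ℂ), eval (ρ g x) F = χ g * eval x F) ∧ eval v F = 0 ∧
      eval w F ≠ 0 := by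
  obtain ⟨F, h1, h2, h3, h4⟩ := core_points Pool.Agent.N148.FQ.t_pair Pool.Agent.N738.FQ.t_bin
    hS he hde hv hw hfv hfw hvw
  exact ⟨_, sec_of_avg χ h1, avg_eq_zero ρ χ F h4, avg_ne_zero ρ χ h1 hχ h2 h3⟩

theorem tangents {J : Type} {f : J → MvPolynomial (Fin M) ℂ} {d : J → ℕ} (hS : Free ρ f d)
    {e : ℕ} (he : (scalars ρ).index ≤ e) (hde : ∀ j, d j ≤ e + 1) (χ : G →* ℂˣ)
    (hχ : ∀ (g : G) (c : ℂ), (∀ x, ρ g x = c • x) → (χ g : ℂ) = c ^ e)
    {v u : Fin M → ℂ} (hv : v ≠ 0) (hfv : ∀ j, eval v (f j) = 0)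
    (hfu : ∀ j, der v u (f j) = 0) (hvu : ∀ t : ℂ, u ≠ t • v) :
    ∃ F : MvPolynomial (Fin M) ℂ, (F.IsHomogeneous e ∧
      ∀ (g : G) (x : Fin M → ℂ), eval (ρ g x) F = χ g * eval x F) ∧ eval v F = 0 ∧
      ∑ i, eval v (pderiv i F) * u i ≠ 0 := by
  have he0 : 1 ≤ e := by
    refine le_trans ?_ he
    have : (scalars ρ).index ≠ 0 := Subgroup.index_ne_zero_of_finite
    omega
  obtain ⟨F, h1, h2, h3, h4⟩ := core_tangents Pool.Agent.N148.FQ.t_pair
    Pool.Agent.N738.FQ.t_bin2 hS he0 he hde hv hfv hfu hvu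
  exact ⟨_, sec_of_avg χ h1, avg_eq_zero ρ χ F h3, der_avg_ne_zero ρ χ h1 hχ h2 h4⟩

omit [Finite G] in
/-- the number of elements modulo scalars -/
theorem index_le [Finite G] {b : ℕ}
    (h : Nat.card G ≤ b * Nat.card {g : G // ∃ c : ℂ, ∀ x, ρ g x = c • x}) :
    (scalars ρ).index ≤ b := by
  have h1 := Subgroup.index_mul_card (scalars ρ)
  have h2 : Nat.card (scalars ρ) = Nat.card {g : G // ∃ c : ℂ, ∀ x, ρ g x = c • x} := rfl
  rw [← h1, h2] at h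
  refine Nat.le_of_mul_le_mul_right h ?_
  rw [← h2]
  exact Nat.card_pos

/-- the order of a group acting freely on a hypersurface -/
theorem index_hypersurface {f : MvPolynomial (Fin M) ℂ} {d k : ℕ} (hM : 2 ≤ M) (hd : 1 ≤ d)
    (hk : 1 ≤ k) (hf : f.IsHomogeneous d)
    (hst : ∀ g : G, ∀ p ∈ Ideal.span {f}, subst (ρ g) p ∈ Ideal.span {f})
    (hfree : ∀ v : Fin M → ℂ, v ≠ 0 → (∀ p ∈ Ideal.span {f}, eval v p = 0) → ∀ (g : G) (μ : ℂ),
      ρ g v = μ • v → g ∈ scalars ρ)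
    (θ : G →* ℂˣ) (hθ : ∀ (g : G) (c : ℂ), (∀ x, ρ g x = c • x) → (θ g : ℂ) = c ^ k) :
    (scalars ρ).index ≤ k * d := by
  have h1 : Nat.card G ∣ k * d * Nat.card (scalars ρ) := by
    refine ord_dvd hM hd hk hf (fun g => ?_) (fun v hv0 hv g μ h => ?_) θ hθ
    · obtain ⟨q, hq⟩ := Ideal.mem_span_singleton'.1 (hst g f (Ideal.mem_span_singleton_self f))
      by_cases h0 : subst (ρ g) f = 0
      · refine ⟨0, fun x => ?_⟩
        rw [← eval_subst, h0, map_zero, zero_mul]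
      · have hf0 : f ≠ 0 := by
          rintro rfl
          rw [mul_zero] at hq
          exact h0 hq.symm
        have hq0 : q ≠ 0 := by
          rintro rfl
          rw [zero_mul] at hq
          exact h0 hq.symm
        have h2 := totalDegree_mul_of_isDomain hq0 hf0
        rw [hq, (subst_isHomogeneous (ρ g) hf).totalDegree h0, hf.totalDegree hf0] at h2
        have h3 : q.totalDegree = 0 := by omega
        have h4 := totalDegree_eq_zero_iff_eq_C.1 h3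
        refine ⟨coeff 0 q, fun x => ?_⟩
        rw [← eval_subst, ← hq, map_mul]
        conv_lhs => rw [h4, eval_C]
    · exact hfree v hv0 (fun p hp => by
        obtain ⟨a, rfl⟩ := Ideal.mem_span_singleton'.1 hp
        rw [map_mul, hv, mul_zero]) g μ h
  rw [← Subgroup.index_mul_card (scalars ρ)] at h1
  have h2 : (scalars ρ).index ∣ k * d := Nat.dvd_of_mul_dvd_mul_right Nat.card_pos h1
  exact Nat.le_of_dvd (by positivity) h2

end Pool.Agent.N212.FQ
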