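import Mathlib

/-!
# Project FQ (helper212): Fujita's conjecture for étale quotients of complete intersections by
arbitrary finite groups of projective transformations. Statements of the parts.
-/

set_option autoImplicit false

namespace Pool.Agent.N212.FQ

open MvPolynomial

/-- Pairing: `K ≤ 2e` items with classes of size at most `e` can be put into `e` boxes, at most two
in each box, the two items of a box having different classes. -/
def S_PAIR : Prop :=
  ∀ (K e : ℕ) (c : Fin K → ℕ), K ≤ 2 * e →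
    (∀ a, (Finset.univ.filter fun i => c i = a).card ≤ e) →
    ∃ τ : Fin K → Fin e, (∀ i j, i ≠ j → τ i = τ j → c i ≠ c j) ∧
      ∀ i j k, τ i = τ j → τ i = τ k → i = j ∨ i = k ∨ j = k

/-- A form of degree `d` that vanishes at `K` pairwise non-proportional vectors of a plane and is
not identically zero on the plane has `K ≤ d`. -/
def S_BIN : Prop :=
  ∀ (M d : ℕ) (f : MvPolynomial (Fin M) ℂ), f.IsHomogeneous d →
    ∀ P : Submodule ℂ (Fin M → ℂ), Module.finrank ℂ P = 2 →
    ∀ (K : ℕ) (x : Fin K → Fin M → ℂ), (∀ i, x i ∈ P) → (∀ i, x i ≠ 0) →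
      (∀ i j, i ≠ j → ∀ t : ℂ, x i ≠ t • x j) → (∀ i, eval (x i) f = 0) →
      (∃ y ∈ P, eval y f ≠ 0) → K ≤ d

/-- The same with double zeros: the derivative of `f` at `x i` in the direction `u i`, a vector of
the plane not proportional to `x i`, is zero. -/
def S_BIN2 : Prop :=
  ∀ (M d : ℕ) (f : MvPolynomial (Fin M) ℂ), f.IsHomogeneous d →
    ∀ P : Submodule ℂ (Fin M → ℂ), Module.finrank ℂ P = 2 →
    ∀ (K : ℕ) (x u : Fin K → Fin M → ℂ), (∀ i, x i ∈ P) → (∀ i, x i ≠ 0) →
      (∀ i j, i ≠ j → ∀ t : ℂ, x i ≠ t • x j) → (∀ i, eval (x i) f = 0) →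
      (∀ i, u i ∈ P) → (∀ i, ∀ t : ℂ, u i ≠ t • x i) →
      (∀ i, ∑ j, eval (x i) (pderiv j f) * u i j = 0) →
      (∃ y ∈ P, eval y f ≠ 0) → 2 * K ≤ d

/-- A finite group of linear maps which acts freely on a projective hypersurface of degree `d`
(in a projective space of dimension at least one) has order dividing `d`. -/
def S_ORD : Prop :=
  ∀ (G : Type) [Group G] [Finite G] (M d : ℕ), 2 ≤ M → 1 ≤ d →
    ∀ ρ : Representation ℂ G (Fin M → ℂ), ∀ f : MvPolynomial (Fin M) ℂ, f.IsHomogeneous d →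
      (∀ g, ∃ c : ℂ, ∀ x, eval (ρ g x) f = c * eval x f) →
      (∀ v : Fin M → ℂ, v ≠ 0 → eval v f = 0 → ∀ (g : G) (μ : ℂ), ρ g v = μ • v → g = 1) →
      Nat.card G ∣ d

end Pool.Agent.N212.FQ
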